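import Pool.Agent.H87FA.Fourier

/-!
Distance functions to the vertices of a regular `N`-gon on the circle of length `2π`.
-/

open Finset ComplexConjugate

namespace Pool.Agent.H87FA

/-- the circle of length `2π` -/
abbrev Circ : Type := AddCircle (2 * Real.pi)

theorem two_pi_ne : (2 * Real.pi) ≠ 0 := by positivity

/-- points of the regular `N`-gon -/
noncomputable def cpt (N : ℕ) [NeZero N] : ZMod N →+ Circ :=
  ZMod.lift N ⟨zmultiplesHom Circ ((2 * Real.pi / N : ℝ) : Circ), by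
    have hN : (N : ℝ) ≠ 0 := by exact_mod_cast NeZero.ne N
    have h : ((N : ℤ) • ((2 * Real.pi / N : ℝ) : Circ)) = (((N : ℤ) • (2 * Real.pi / N : ℝ) : ℝ) : Circ) :=
      rfl
    have e : ((N : ℤ) • (2 * Real.pi / N : ℝ) : ℝ) = 2 * Real.pi := by
      rw [zsmul_eq_mul]; push_cast; field_simp
    rw [zmultiplesHom_apply, h, e]
    exact AddCircle.coe_period _⟩

variable {N : ℕ} [NeZero N]

theorem cpt_intCast (a : ℤ) : cpt N (a : ZMod N) = ((2 * Real.pi * a / N : ℝ) : Circ) := by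
  unfold cpt
  rw [ZMod.lift_coe]
  have h : (zmultiplesHom Circ ((2 * Real.pi / N : ℝ) : Circ)) a =
      ((a • (2 * Real.pi / N : ℝ) : ℝ) : Circ) := rfl
  rw [h, zsmul_eq_mul]
  congr 1
  ring

theorem cpt_natCast (a : ℕ) : cpt N (a : ZMod N) = ((2 * Real.pi * a / N : ℝ) : Circ) := by
  have := cpt_intCast (N := N) (a : ℤ)
  simpa using this

/-- distance of a vertex to the base vertex -/
noncomputable def dst (N : ℕ) [NeZero N] (x : ZMod N) : ℝ := ‖cpt N x‖

theorem norm_coe_of_le {x : ℝ} (h0 : 0 ≤ x) (h1 : x ≤ Real.pi) : ‖(x : Circ)‖ = x := by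
  have h := (AddCircle.norm_coe_eq_abs_iff (p := 2 * Real.pi) (x := x) two_pi_ne).2 (by
    rw [abs_of_nonneg h0, abs_of_pos (by positivity)]; linarith)
  rw [h, abs_of_nonneg h0]

theorem norm_coe_of_ge {x : ℝ} (h0 : Real.pi ≤ x) (h1 : x ≤ 2 * Real.pi) :
    ‖(x : Circ)‖ = 2 * Real.pi - x := by
  have h : ((2 * Real.pi - x : ℝ) : Circ) = -(x : Circ) := by
    have e : ((2 * Real.pi - x : ℝ) : Circ) = ((2 * Real.pi : ℝ) : Circ) - (x : Circ) := rfl
    rw [e, AddCircle.coe_period, zero_sub]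
  rw [← norm_neg, ← h, norm_coe_of_le (by linarith) (by linarith)]

theorem dst_le_half (H : ℕ) (hN : N = 2 * H) (a : ℕ) (ha : a ≤ H) :
    dst N (a : ZMod N) = 2 * Real.pi * a / N := by
  have hN0 : (0 : ℝ) < N := by exact_mod_cast Nat.pos_of_ne_zero (NeZero.ne N)
  have hN' : (N : ℝ) = 2 * H := by exact_mod_cast hN
  have ha' : (a : ℝ) ≤ H := by exact_mod_cast ha
  unfold dst
  rw [cpt_natCast]
  apply norm_coe_of_le
  · positivity
  · rw [div_le_iff₀ hN0, hN']
    nlinarith [Real.pi_pos]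

theorem dst_ge_half (H : ℕ) (hN : N = 2 * H) (a : ℕ) (ha : H ≤ a) (ha2 : a ≤ N) :
    dst N (a : ZMod N) = 2 * Real.pi * (N - a) / N := by
  have hN0 : (0 : ℝ) < N := by exact_mod_cast Nat.pos_of_ne_zero (NeZero.ne N)
  have hN' : (N : ℝ) = 2 * H := by exact_mod_cast hN
  have ha' : (H : ℝ) ≤ a := by exact_mod_cast ha
  have ha2' : (a : ℝ) ≤ N := by exact_mod_cast ha2
  unfold dst
  rw [cpt_natCast, norm_coe_of_ge]
  · field_simp
  · rw [le_div_iff₀ hN0, hN']
    nlinarith [Real.pi_pos]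
  · rw [div_le_iff₀ hN0]
    nlinarith [Real.pi_pos]

/-- the distance function is affine between consecutive vertices -/
theorem norm_affine (H : ℕ) (hN : N = 2 * H) (a : ℤ) (t : ℝ) (ht0 : 0 ≤ t) (ht1 : t ≤ 1) :
    ‖((2 * Real.pi * (a + t) / N : ℝ) : Circ)‖ =
      (1 - t) * dst N (a : ZMod N) + t * dst N ((a + 1 : ℤ) : ZMod N) := by
  have hN0 : (0 : ℝ) < N := by exact_mod_cast Nat.pos_of_ne_zero (NeZero.ne N)
  have hNN : (0 : ℤ) < N := by exact_mod_cast Nat.pos_of_ne_zero (NeZero.ne N)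
  have hN' : (N : ℝ) = 2 * H := by exact_mod_cast hN
  -- reduce to 0 ≤ a < N
  have hred : ∀ b : ℕ, b < N → ‖((2 * Real.pi * (b + t) / N : ℝ) : Circ)‖ =
      (1 - t) * dst N (b : ZMod N) + t * dst N ((b + 1 : ℕ) : ZMod N) := by
    intro b hb
    by_cases hbH : b < H
    · rw [dst_le_half H hN b hbH.le, dst_le_half H hN (b + 1) hbH]
      rw [norm_coe_of_le]
      · push_cast; field_simp; ring
      · positivity
      · have h1 : (b : ℝ) + 1 ≤ H := by exact_mod_cast hbH
        rw [div_le_iff₀ hN0, hN']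
        nlinarith [Real.pi_pos]
    · have hbH' : H ≤ b := not_lt.mp hbH
      rw [dst_ge_half H hN b hbH' hb.le, dst_ge_half H hN (b + 1) (by omega) hb]
      have h1 : (H : ℝ) ≤ b := by exact_mod_cast hbH'
      have h2 : (b : ℝ) + 1 ≤ N := by exact_mod_cast hb
      rw [norm_coe_of_ge]
      · push_cast; field_simp; ring
      · rw [le_div_iff₀ hN0, hN']
        nlinarith [Real.pi_pos]
      · rw [div_le_iff₀ hN0]
        nlinarith [Real.pi_pos]
  obtain ⟨b, hb⟩ := Int.eq_ofNat_of_zero_le (Int.emod_nonneg a hNN.ne')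
  have hbN : b < N := by
    have := Int.emod_lt_of_pos a hNN
    rw [hb] at this
    exact_mod_cast this
  have hdiv : a = b + N * (a / N) := by
    have := Int.emod_add_mul_ediv a N
    rw [hb] at this
    exact_mod_cast this.symm
  have e1 : (a : ZMod N) = (b : ZMod N) := by
    rw [hdiv]; push_cast; simp
  have e2 : ((a + 1 : ℤ) : ZMod N) = ((b + 1 : ℕ) : ZMod N) := by
    push_cast
    rw [e1]
  have e3 : ((2 * Real.pi * (a + t) / N : ℝ) : Circ) = ((2 * Real.pi * (b + t) / N : ℝ) : Circ) := by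
    have h3 : (2 * Real.pi * (a + t) / N : ℝ) =
        2 * Real.pi * (b + t) / N + (a / (N : ℤ) : ℤ) • (2 * Real.pi) := by
      rw [zsmul_eq_mul]
      have : (a : ℝ) = b + N * ((a / (N : ℤ) : ℤ) : ℝ) := by exact_mod_cast hdiv
      rw [this]; field_simp; ring
    rw [h3]
    have h4 : (((2 * Real.pi * (b + t) / N + (a / (N : ℤ) : ℤ) • (2 * Real.pi) : ℝ)) : Circ) =
        ((2 * Real.pi * (b + t) / N : ℝ) : Circ) + (a / (N : ℤ) : ℤ) • ((2 * Real.pi : ℝ) : Circ) :=
      rfl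
    rw [h4, AddCircle.coe_period, smul_zero, add_zero]
  rw [e1, e2, e3]
  exact hred b hbN

theorem dst_neg (x : ZMod N) : dst N (-x) = dst N x := by
  unfold dst; rw [map_neg, norm_neg]

/-- second difference of the distance function -/
theorem dst_second_diff (H : ℕ) (hN : N = 2 * H) (x : ZMod N) :
    dst N (x + 1) + dst N (x - 1) - 2 * dst N x =
      (if x = 0 then 2 * (2 * Real.pi / N) else 0) -
      (if x = (H : ZMod N) then 2 * (2 * Real.pi / N) else 0) := by
  have hNpos : 0 < N := Nat.pos_of_ne_zero (NeZero.ne N)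
  have hN0 : (0 : ℝ) < N := by exact_mod_cast hNpos
  have hH : 0 < H := by omega
  have hN' : (N : ℝ) = 2 * H := by exact_mod_cast hN
  have hHr : (0 : ℝ) < H := by exact_mod_cast hH
  obtain ⟨a, ha, rfl⟩ : ∃ a : ℕ, a < N ∧ (a : ZMod N) = x := ⟨x.val, ZMod.val_lt x, by simp⟩
  have hcast : ∀ b : ℕ, b < N → ((a : ZMod N) = (b : ZMod N) ↔ a = b) := by
    intro b hb
    rw [ZMod.natCast_eq_natCast_iff', Nat.mod_eq_of_lt ha, Nat.mod_eq_of_lt hb]
  have h0 : ((a : ZMod N) = 0 ↔ a = 0) := by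
    have := hcast 0 hNpos
    simpa using this
  have hHH : ((a : ZMod N) = (H : ZMod N) ↔ a = H) := hcast H (by omega)
  simp only [h0, hHH]
  rcases Nat.eq_zero_or_pos a with h | h
  · subst h
    have e1 : dst N (((0 : ℕ) : ZMod N) - 1) = dst N ((1 : ℕ) : ZMod N) := by
      rw [← dst_neg]; congr 1; simp
    have e2 : ((0 : ℕ) : ZMod N) + 1 = ((1 : ℕ) : ZMod N) := by simp
    rw [e1, e2, dst_le_half H hN 1 hH, dst_le_half H hN 0 (Nat.zero_le _)]
    simp only [if_true, hH.ne, if_false]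
    push_cast; ring
  · have e1 : ((a : ZMod N) - 1) = ((a - 1 : ℕ) : ZMod N) := by
      rw [Nat.cast_sub h]; simp
    have e2 : ((a : ZMod N) + 1) = ((a + 1 : ℕ) : ZMod N) := by push_cast; rfl
    rw [e1, e2]
    have hc : ((a - 1 : ℕ) : ℝ) = (a : ℝ) - 1 := by rw [Nat.cast_sub h]; simp
    rcases lt_trichotomy a H with h1 | h1 | h1
    · rw [dst_le_half H hN (a + 1) h1, dst_le_half H hN (a - 1) (by omega),
        dst_le_half H hN a h1.le, if_neg h.ne', if_neg h1.ne, hc]
      push_cast; ring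
    · rw [dst_ge_half H hN (a + 1) (by omega) (by omega), dst_le_half H hN (a - 1) (by omega),
        dst_le_half H hN a h1.le, if_neg h.ne', if_pos h1, hc, h1]
      push_cast; rw [hN']; field_simp; ring
    · rw [dst_ge_half H hN (a + 1) (by omega) (by omega), dst_ge_half H hN (a - 1) (by omega)
        (by omega), dst_ge_half H hN a h1.le ha.le, if_neg h.ne', if_neg h1.ne', hc]
      push_cast; ring

/-- Fourier coefficient of the distance function -/
noncomputable def dhat (N : ℕ) [NeZero N] (k : ZMod N) : ℂ :=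
  ∑ x, (dst N x : ℂ) * ZMod.stdAddChar (-(k * x))

theorem four_shift (k i : ZMod N) :
    four k (fun j => (dst N (i - j) : ℂ)) = ZMod.stdAddChar (k * i) * dhat N k := by
  unfold four dhat
  rw [← Equiv.sum_comp (Equiv.subLeft i), Finset.mul_sum]
  apply Finset.sum_congr rfl
  intro x _
  simp only [Equiv.subLeft_apply, sub_sub_cancel]
  rw [mul_sub, sub_eq_add_neg, AddChar.map_add_eq_mul]
  ring

theorem dhat_eq (H : ℕ) (hN : N = 2 * H) (k : ZMod N) :
    (ZMod.stdAddChar k + ZMod.stdAddChar (-k) - 2) * dhat N k =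
      2 * (2 * Real.pi / N) * (1 - ZMod.stdAddChar (-(k * (H : ZMod N)))) := by
  have h1 : ∑ x, (dst N (x + 1) : ℂ) * ZMod.stdAddChar (-(k * x)) =
      ZMod.stdAddChar k * dhat N k := by
    unfold dhat
    rw [← Equiv.sum_comp (Equiv.addRight (1 : ZMod N)) (fun x =>
      (dst N x : ℂ) * ZMod.stdAddChar (-(k * x))), Finset.mul_sum]
    apply Finset.sum_congr rfl
    intro x _
    simp only [Equiv.coe_addRight]
    have : -(k * x) = k + -(k * (x + 1)) := by ring
    rw [this, AddChar.map_add_eq_mul]; ring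
  have h2 : ∑ x, (dst N (x - 1) : ℂ) * ZMod.stdAddChar (-(k * x)) =
      ZMod.stdAddChar (-k) * dhat N k := by
    unfold dhat
    rw [← Equiv.sum_comp (Equiv.subRight (1 : ZMod N)) (fun x =>
      (dst N x : ℂ) * ZMod.stdAddChar (-(k * x))), Finset.mul_sum]
    apply Finset.sum_congr rfl
    intro x _
    simp only [Equiv.subRight_apply]
    have : -(k * x) = -k + -(k * (x - 1)) := by ring
    rw [this, AddChar.map_add_eq_mul]; ring
  have h3 : (ZMod.stdAddChar k + ZMod.stdAddChar (-k) - 2) * dhat N k =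
      ∑ x, ((dst N (x + 1) + dst N (x - 1) - 2 * dst N x : ℝ) : ℂ) *
        ZMod.stdAddChar (-(k * x)) := by
    have : ∀ x : ZMod N, ((dst N (x + 1) + dst N (x - 1) - 2 * dst N x : ℝ) : ℂ) *
        ZMod.stdAddChar (-(k * x)) = (dst N (x + 1) : ℂ) * ZMod.stdAddChar (-(k * x)) +
        (dst N (x - 1) : ℂ) * ZMod.stdAddChar (-(k * x)) -
        2 * ((dst N x : ℂ) * ZMod.stdAddChar (-(k * x))) := by
      intro x; push_cast; ring
    rw [Finset.sum_congr rfl (fun x _ => this x), Finset.sum_sub_distrib, Finset.sum_add_distrib,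
      h1, h2, ← Finset.mul_sum]
    unfold dhat
    ring
  rw [h3]
  have h4 : ∀ x : ZMod N, ((dst N (x + 1) + dst N (x - 1) - 2 * dst N x : ℝ) : ℂ) *
      ZMod.stdAddChar (-(k * x)) =
      (if x = 0 then (2 * (2 * Real.pi / N) : ℂ) * ZMod.stdAddChar (-(k * x)) else 0) -
      (if x = (H : ZMod N) then (2 * (2 * Real.pi / N) : ℂ) * ZMod.stdAddChar (-(k * x)) else 0) := by
    intro x
    rw [dst_second_diff H hN]
    split_ifs <;> push_cast <;> ring
  rw [Finset.sum_congr rfl (fun x _ => h4 x), Finset.sum_sub_distrib]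
  simp only [Finset.sum_ite_eq', Finset.mem_univ, if_true, mul_zero, neg_zero,
    AddChar.map_zero_eq_one]
  ring

theorem addChar_natCast (k : ℕ) :
    (ZMod.stdAddChar ((k : ℕ) : ZMod N) : ℂ) =
      Complex.exp (((2 * Real.pi * k / N : ℝ) : ℂ) * Complex.I) := by
  have h := ZMod.stdAddChar_coe (N := N) (k : ℤ)
  rw [Int.cast_natCast] at h
  rw [h]
  congr 1
  push_cast
  ring

theorem dhat_norm (H : ℕ) (hN : N = 2 * H) (m : ℕ) (hm : 2 * m + 1 < H) :
    ‖dhat N ((2 * m + 1 : ℕ) : ZMod N)‖ =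
      (2 * Real.pi / N) / (Real.sin (Real.pi * (2 * m + 1) / N)) ^ 2 := by
  have hN0 : (0 : ℝ) < N := by exact_mod_cast Nat.pos_of_ne_zero (NeZero.ne N)
  have hN' : (N : ℝ) = 2 * H := by exact_mod_cast hN
  have hm' : (2 * m + 1 : ℝ) < H := by exact_mod_cast hm
  set k : ZMod N := ((2 * m + 1 : ℕ) : ZMod N) with hk
  set x : ℝ := Real.pi * (2 * m + 1) / N with hx
  have hx0 : 0 < x := by positivity
  have hx1 : x < Real.pi := by
    rw [hx, div_lt_iff₀ hN0, hN']
    nlinarith [Real.pi_pos]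
  have hsin : 0 < Real.sin x := Real.sin_pos_of_pos_of_lt_pi hx0 hx1
  have h := dhat_eq H hN k
  -- the character at k
  have e1 : (ZMod.stdAddChar k : ℂ) = Complex.exp (((2 * x : ℝ) : ℂ) * Complex.I) := by
    rw [hk, addChar_natCast]
    congr 3
    rw [hx]; push_cast; ring
  have e2 : (ZMod.stdAddChar (-k) : ℂ) = conj (ZMod.stdAddChar k : ℂ) :=
    AddChar.map_neg_eq_conj _ _
  have e3 : (ZMod.stdAddChar k : ℂ) + ZMod.stdAddChar (-k) - 2 =
      ((-4 * Real.sin x ^ 2 : ℝ) : ℂ) := by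
    rw [e2, Complex.add_conj, e1, Complex.exp_ofReal_mul_I_re]
    rw [Real.cos_two_mul, Real.cos_sq']
    push_cast; ring
  have e4 : (ZMod.stdAddChar (-(k * (H : ZMod N))) : ℂ) = -1 := by
    rw [AddChar.map_neg_eq_conj]
    have h5 : k * (H : ZMod N) = (((2 * m + 1) * H : ℕ) : ZMod N) := by
      rw [hk]; push_cast; ring
    rw [h5, addChar_natCast]
    have h6 : (2 * Real.pi * (((2 * m + 1) * H : ℕ) : ℝ) / N : ℝ) =
        Real.pi + (m : ℕ) * (2 * Real.pi) := by
      have hH0 : (0 : ℝ) < H := by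
        have : (0 : ℝ) ≤ 2 * m + 1 := by positivity
        linarith
      rw [hN']; push_cast; field_simp; ring
    rw [h6]
    have h7 : Complex.exp (((Real.pi + (m : ℕ) * (2 * Real.pi) : ℝ) : ℂ) * Complex.I) = -1 := by
      apply Complex.ext
      · rw [Complex.exp_ofReal_mul_I_re, Real.cos_add_nat_mul_two_pi, Real.cos_pi]; simp
      · rw [Complex.exp_ofReal_mul_I_im, Real.sin_add_nat_mul_two_pi, Real.sin_pi]; simp
    rw [h7]; simp
  rw [e3, e4] at h
  have h8 : ‖((-4 * Real.sin x ^ 2 : ℝ) : ℂ) * dhat N k‖ = 4 * (2 * Real.pi / N) := by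
    rw [h]
    have : (2 * (2 * Real.pi / N) * (1 - -1) : ℂ) = ((4 * (2 * Real.pi / N) : ℝ) : ℂ) := by
      push_cast; ring
    rw [this, Complex.norm_real, Real.norm_eq_abs, abs_of_pos (by positivity)]
  rw [norm_mul, Complex.norm_real, Real.norm_eq_abs, abs_of_nonpos (by nlinarith)] at h8
  rw [eq_div_iff (by positivity)]
  nlinarith

/-- the value of one frequency of the boundary term -/
theorem dhat_term (H : ℕ) (hN : N = 2 * H) (m : ℕ) (hm : 2 * m + 1 < H) :
    ‖dhat N ((2 * m + 1 : ℕ) : ZMod N)‖ ^ 2 *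
      (ZMod.stdAddChar ((2 * m + 1 : ℕ) : ZMod N) : ℂ).im =
      (8 * Real.pi ^ 2 / N ^ 2) * (Real.cos (Real.pi * (2 * m + 1) / N) /
        Real.sin (Real.pi * (2 * m + 1) / N) ^ 3) := by
  have hN0 : (0 : ℝ) < N := by exact_mod_cast Nat.pos_of_ne_zero (NeZero.ne N)
  have hN' : (N : ℝ) = 2 * H := by exact_mod_cast hN
  have hm' : (2 * m + 1 : ℝ) < H := by exact_mod_cast hm
  rw [dhat_norm H hN m hm, addChar_natCast, Complex.exp_ofReal_mul_I_im]
  set x : ℝ := Real.pi * (2 * m + 1) / N with hx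
  have hx0 : 0 < x := by positivity
  have hx1 : x < Real.pi := by
    rw [hx, div_lt_iff₀ hN0, hN']
    nlinarith [Real.pi_pos]
  have hsin : 0 < Real.sin x := Real.sin_pos_of_pos_of_lt_pi hx0 hx1
  have e : (2 * Real.pi * ((2 * m + 1 : ℕ) : ℝ) / N : ℝ) = 2 * x := by
    rw [hx]; push_cast; ring
  rw [e, Real.sin_two_mul]
  field_simp
  ring

end Pool.Agent.H87FA
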