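import Pool.Agent.H87FA.Limit
import Pool.Agent.H87FA.Circle

/-!
Chains of Riemannian squares and the boundary circle.
-/

open MeasureTheory Set Filter Topology

namespace Pool.Agent.H87FA

section Form

variable {N : ℕ} [NeZero N]

/-- the symplectic form attached to a set of frequencies, as a continuous bilinear map -/
noncomputable def omK (K : Finset (ZMod N)) : (ZMod N → ℝ) →L[ℝ] (ZMod N → ℝ) →L[ℝ] ℝ :=
  ∑ j, ∑ l, coef K j l • (ContinuousLinearMap.smulRight
    (ContinuousLinearMap.proj (R := ℝ) (φ := fun _ : ZMod N => ℝ) j)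
    (ContinuousLinearMap.proj (R := ℝ) (φ := fun _ : ZMod N => ℝ) l))

theorem omK_apply (K : Finset (ZMod N)) (x y : ZMod N → ℝ) :
    omK K x y = ∑ j, ∑ l, coef K j l * x j * y l := by
  unfold omK
  simp only [ContinuousLinearMap.sum_apply, ContinuousLinearMap.smul_apply,
    ContinuousLinearMap.smulRight_apply, ContinuousLinearMap.proj_apply, smul_eq_mul, mul_assoc]

theorem omK_antisymm (K : Finset (ZMod N)) (x y : ZMod N → ℝ) : omK K x y = - omK K y x := by
  rw [omK_apply, omK_apply, Finset.sum_comm, ← Finset.sum_neg_distrib]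
  apply Finset.sum_congr rfl; intro l _
  rw [← Finset.sum_neg_distrib]
  apply Finset.sum_congr rfl; intro j _
  rw [coef_antisymm K j l]; ring

/-- distance vectors of the vertices -/
noncomputable def vtx (N : ℕ) [NeZero N] (a : ℕ) : ZMod N → ℝ := fun j => dst N ((a : ZMod N) - j)

theorem omK_vtx (K : Finset (ZMod N)) (a : ℕ) :
    omK K (vtx N a) (vtx N (a + 1)) =
      ∑ k ∈ K, ‖dhat N k‖ ^ 2 * (ZMod.stdAddChar k : ℂ).im := by
  rw [omK_apply, sum_coef]
  apply Finset.sum_congr rfl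
  intro k _
  unfold vtx
  rw [four_shift, four_shift]
  have h1 : (starRingEnd ℂ) (ZMod.stdAddChar (k * (a : ZMod N)) * dhat N k) *
      (ZMod.stdAddChar (k * ((a + 1 : ℕ) : ZMod N)) * dhat N k) =
      ((‖dhat N k‖ ^ 2 : ℝ) : ℂ) * ZMod.stdAddChar k := by
    have e1 : k * ((a + 1 : ℕ) : ZMod N) = k * (a : ZMod N) + k := by push_cast; ring
    rw [e1, AddChar.map_add_eq_mul, map_mul (starRingEnd ℂ), ← AddChar.map_neg_eq_conj]
    have e2 : (ZMod.stdAddChar (-(k * (a : ZMod N))) : ℂ) * ZMod.stdAddChar (k * (a : ZMod N)) = 1 := by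
      rw [← AddChar.map_add_eq_mul, neg_add_cancel, AddChar.map_zero_eq_one]
    have e3 : (starRingEnd ℂ) (dhat N k) * dhat N k = ((‖dhat N k‖ ^ 2 : ℝ) : ℂ) := by
      rw [Complex.conj_mul']; push_cast; rfl
    calc _ = (ZMod.stdAddChar (-(k * (a : ZMod N))) * ZMod.stdAddChar (k * (a : ZMod N))) *
          ((starRingEnd ℂ) (dhat N k) * dhat N k) * ZMod.stdAddChar k := by ring
      _ = _ := by rw [e2, e3, one_mul]
  rw [h1, Complex.im_ofReal_mul]

theorem polyline (ω : (ZMod N → ℝ) →L[ℝ] (ZMod N → ℝ) →L[ℝ] ℝ) (hω : ∀ v w, ω v w = - ω w v)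
    (A B : ZMod N → ℝ) (R : ℕ) (hR : 0 < R) :
    ∑ b ∈ Finset.range R, ω (A + ((b : ℝ) / R) • (B - A)) (A + (((b + 1 : ℕ) : ℝ) / R) • (B - A)) =
      ω A B := by
  have hR' : (R : ℝ) ≠ 0 := by exact_mod_cast hR.ne'
  have h0 : ∀ v, ω v v = 0 := fun v => by have := hω v v; linarith
  have h1 : ∀ b : ℕ, ω (A + ((b : ℝ) / R) • (B - A)) (A + (((b + 1 : ℕ) : ℝ) / R) • (B - A)) =
      (1 / R) * ω A B := by
    intro b
    simp only [map_add, map_smul, map_sub, ContinuousLinearMap.add_apply,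
      ContinuousLinearMap.smul_apply, ContinuousLinearMap.sub_apply, smul_eq_mul, h0]
    rw [hω B A]
    push_cast; field_simp; ring
  rw [Finset.sum_congr rfl (fun b _ => h1 b), Finset.sum_const, Finset.card_range, nsmul_eq_mul]
  field_simp

end Form

theorem sum_range_block (g : ℕ → ℝ) (m n : ℕ) :
    ∑ l ∈ Finset.range (m * n), g l = ∑ j ∈ Finset.range m, ∑ i ∈ Finset.range n, g (j * n + i) := by
  induction m with
  | zero => simp
  | succ m ih =>
    rw [Nat.succ_mul, Finset.sum_range_add, ih, Finset.sum_range_succ]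

section Paths

variable {X : Type*} [MetricSpace X] {N : ℕ} [NeZero N]

/-- discrete integral along a path -/
noncomputable def edgeSum (ω : (ZMod N → ℝ) →L[ℝ] (ZMod N → ℝ) →L[ℝ] ℝ) (Φ : X → ZMod N → ℝ)
    (n : ℕ) (σ : unitInterval → X) : ℝ :=
  halfSum ω (fun i => Φ (σ (Set.projIcc 0 1 zero_le_one ((i : ℝ) / n)))) n

theorem edgeSum_symm (ω : (ZMod N → ℝ) →L[ℝ] (ZMod N → ℝ) →L[ℝ] ℝ)
    (hω : ∀ v w, ω v w = - ω w v) (Φ : X → ZMod N → ℝ) (n : ℕ) (σ : unitInterval → X) :
    edgeSum ω Φ n (fun t => σ (unitInterval.symm t)) = - edgeSum ω Φ n σ := by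
  unfold edgeSum halfSum
  rw [← Finset.sum_range_reflect, ← mul_neg, ← Finset.sum_neg_distrib]
  congr 1
  apply Finset.sum_congr rfl
  intro i hi
  rw [Finset.mem_range] at hi
  have hn : (0 : ℝ) < n := by exact_mod_cast (by omega : 0 < n)
  have key : ∀ a b : ℕ, a + b = n → unitInterval.symm
      (Set.projIcc 0 1 zero_le_one ((a : ℝ) / n)) = Set.projIcc 0 1 zero_le_one ((b : ℝ) / n) := by
    intro a b hab
    have hab' : (a : ℝ) + b = n := by exact_mod_cast hab
    have ha0 : (0 : ℝ) ≤ a := Nat.cast_nonneg a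
    have hb0 : (0 : ℝ) ≤ b := Nat.cast_nonneg b
    apply Subtype.ext
    rw [unitInterval.coe_symm_eq, Set.projIcc_of_mem zero_le_one
      ⟨by positivity, by rw [div_le_one hn]; linarith⟩, Set.projIcc_of_mem zero_le_one
      ⟨by positivity, by rw [div_le_one hn]; linarith⟩]
    simp only
    field_simp
    linarith
  have e1 := key (n - 1 - i) (i + 1) (by omega)
  have e2 := key (n - 1 - i + 1) i (by omega)
  beta_reduce
  rw [e1, e2, hω]

/-- the `j`-th of `m` consecutive arcs of a closed curve -/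
noncomputable def arc (γ : Circ → X) (m : ℕ) (j : ℕ) : unitInterval → X :=
  fun t => γ ((2 * Real.pi * ((j : ℝ) + t) / m : ℝ) : Circ)

theorem sum_arc (H : ℕ) (hN : N = 2 * H) (K : Finset (ZMod N)) (γ : Circ → X)
    (Φ : X → ZMod N → ℝ) (hΦ : ∀ θ j, Φ (γ θ) j = dist θ (cpt N j)) (m : ℕ) (hm : 0 < m)
    (r : ℕ) (hr : 0 < r) :
    ∑ j ∈ Finset.range m, edgeSum (omK K) Φ (N * r) (arc γ m j) =
      (1 / 2) * (N * ∑ k ∈ K, ‖dhat N k‖ ^ 2 * (ZMod.stdAddChar k : ℂ).im) := by
  have hNpos : 0 < N := Nat.pos_of_ne_zero (NeZero.ne N)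
  have hN0 : (0 : ℝ) < N := by exact_mod_cast hNpos
  have hm0 : (0 : ℝ) < m := by exact_mod_cast hm
  have hr0 : (0 : ℝ) < r := by exact_mod_cast hr
  let c : ℕ → ZMod N → ℝ := fun l => Φ (γ ((2 * Real.pi * l / (m * (N * r)) : ℝ) : Circ))
  -- all arcs together
  have h1 : ∀ j ∈ Finset.range m, edgeSum (omK K) Φ (N * r) (arc γ m j) =
      (1 / 2) * ∑ i ∈ Finset.range (N * r), omK K (c (j * (N * r) + i)) (c (j * (N * r) + i + 1)) := by
    intro j _
    unfold edgeSum halfSum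
    congr 1
    apply Finset.sum_congr rfl
    intro i hi
    rw [Finset.mem_range] at hi
    have key : ∀ a : ℕ, a ≤ N * r → Φ (arc γ m j
        (Set.projIcc 0 1 zero_le_one ((a : ℝ) / ((N * r : ℕ) : ℝ)))) = c (j * (N * r) + a) := by
      intro a ha
      have ha' : (a : ℝ) ≤ N * r := by exact_mod_cast ha
      unfold arc
      simp only [c]
      congr 3
      rw [Set.projIcc_of_mem zero_le_one ⟨by positivity, by
        rw [div_le_one (by positivity)]; push_cast; exact ha'⟩]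
      push_cast
      field_simp
    beta_reduce
    rw [key i hi.le, key (i + 1) hi]
    rfl
  rw [Finset.sum_congr rfl h1, ← Finset.mul_sum, ← sum_range_block (fun l => omK K (c l) (c (l + 1)))]
  have h2 : m * (N * r) = N * (m * r) := by ring
  rw [h2, sum_range_block (fun l => omK K (c l) (c (l + 1)))]
  congr 1
  -- points between consecutive vertices
  have h3 : ∀ a b : ℕ, b ≤ m * r → c (a * (m * r) + b) =
      vtx N a + ((b : ℝ) / ((m * r : ℕ) : ℝ)) • (vtx N (a + 1) - vtx N a) := by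
    intro a b hb
    have hb' : (b : ℝ) ≤ m * r := by exact_mod_cast hb
    funext j
    simp only [c, Pi.add_apply, Pi.smul_apply, Pi.sub_apply, smul_eq_mul]
    rw [hΦ, dist_eq_norm]
    obtain ⟨v, hv, rfl⟩ : ∃ v : ℕ, v < N ∧ (v : ZMod N) = j := ⟨j.val, ZMod.val_lt j, by simp⟩
    rw [cpt_natCast]
    set t : ℝ := (b : ℝ) / ((m * r : ℕ) : ℝ) with ht
    have ht0 : 0 ≤ t := by positivity
    have ht1 : t ≤ 1 := by
      rw [ht, div_le_one (by push_cast; positivity)]; push_cast; exact hb'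
    have e : ((2 * Real.pi * ((a * (m * r) + b : ℕ) : ℝ) / (m * (N * r)) : ℝ) : Circ) -
        ((2 * Real.pi * v / N : ℝ) : Circ) =
        ((2 * Real.pi * (((a : ℤ) - (v : ℤ) : ℤ) + t) / N : ℝ) : Circ) := by
      have e' : (2 * Real.pi * (((a : ℤ) - (v : ℤ) : ℤ) + t) / N : ℝ) =
          2 * Real.pi * ((a * (m * r) + b : ℕ) : ℝ) / (m * (N * r)) - 2 * Real.pi * v / N := by
        rw [ht]; push_cast; field_simp; ring
      rw [e']; rfl
    rw [e, norm_affine H hN _ t ht0 ht1]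
    unfold vtx
    have e1 : (((a : ℤ) - (v : ℤ) : ℤ) : ZMod N) = (a : ZMod N) - (v : ZMod N) := by push_cast; rfl
    have e2 : ((((a : ℤ) - (v : ℤ) + 1 : ℤ)) : ZMod N) = ((a + 1 : ℕ) : ZMod N) - (v : ZMod N) := by
      push_cast; ring
    rw [e1, e2]
    ring
  have h4 : ∀ a ∈ Finset.range N, ∑ b ∈ Finset.range (m * r),
      omK K (c (a * (m * r) + b)) (c (a * (m * r) + b + 1)) =
      ∑ k ∈ K, ‖dhat N k‖ ^ 2 * (ZMod.stdAddChar k : ℂ).im := by
    intro a _
    rw [← omK_vtx K a, ← polyline (omK K) (omK_antisymm K) (vtx N a) (vtx N (a + 1)) (m * r)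
      (Nat.mul_pos hm hr)]
    apply Finset.sum_congr rfl
    intro b hb
    rw [Finset.mem_range] at hb
    rw [h3 a b hb.le, add_assoc, h3 a (b + 1) hb]
  rw [Finset.sum_congr rfl h4, Finset.sum_const, Finset.card_range, nsmul_eq_mul]

end Paths

end Pool.Agent.H87FA
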