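import Pool.Agent.H87FA.Zeta

/-!
MP_aeade1_gt, the case `d = 1`: every orientable nonshortcutting filling of the circle of length
`2π`, of any genus, has area at least `14 ζ(3) / π = 5.3567...`.
-/

open MeasureTheory

namespace Pool.Agent.Results.MP_aeade1_gt.CircleFillingZetaThree

/-- The closed unit square. -/
def unitSquare : Set (ℝ × ℝ) := Set.Icc (0 : ℝ) 1 ×ˢ Set.Icc (0 : ℝ) 1

/-- The squared length `E u² + 2 F u v + G v²` of the vector `(u, v)` at the point `p`. -/
noncomputable def firstForm (E F G : ℝ × ℝ → ℝ) (p : ℝ × ℝ) (u v : ℝ) : ℝ :=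
  E p * u ^ 2 + 2 * F p * u * v + G p * v ^ 2

/-- The length of the straight segment from `p` to `p'` for the metric `E dx² + 2 F dx dy + G dy²`. -/
noncomputable def segmentLength (E F G : ℝ × ℝ → ℝ) (p p' : ℝ × ℝ) : ℝ :=
  ∫ t in (0 : ℝ)..1, Real.sqrt (firstForm E F G
    (p.1 + t * (p'.1 - p.1), p.2 + t * (p'.2 - p.2)) (p'.1 - p.1) (p'.2 - p.2))

/-- `q` maps the unit square to the metric space `X`, and `E dx² + 2 F dx dy + G dy²` is a
continuous positive semidefinite metric on the square for which `q` does not increase distances. -/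
structure IsRiemannianSquare {X : Type} [MetricSpace X] (q : ℝ × ℝ → X) (E F G : ℝ × ℝ → ℝ) :
    Prop where
  continuous_E : ContinuousOn E unitSquare
  continuous_F : ContinuousOn F unitSquare
  continuous_G : ContinuousOn G unitSquare
  nonneg_E : ∀ p ∈ unitSquare, 0 ≤ E p
  nonneg_G : ∀ p ∈ unitSquare, 0 ≤ G p
  det_nonneg : ∀ p ∈ unitSquare, F p ^ 2 ≤ E p * G p
  dist_le : ∀ p ∈ unitSquare, ∀ p' ∈ unitSquare, dist (q p) (q p') ≤ segmentLength E F G p p'

/-- The area of the unit square for the metric `E dx² + 2 F dx dy + G dy²`. -/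
noncomputable def squareArea (E F G : ℝ × ℝ → ℝ) : ℝ :=
  ∫ p in unitSquare, Real.sqrt (E p * G p - F p ^ 2)

/-- The `j`-th of the `m` consecutive arcs of equal length of a closed curve, parametrised by
`[0, 1]` with constant speed. -/
noncomputable def arc {X : Type} (γ : AddCircle (2 * Real.pi) → X) (m j : ℕ) : unitInterval → X :=
  fun t => γ ((2 * Real.pi * ((j : ℝ) + t) / m : ℝ) : AddCircle (2 * Real.pi))

/-- The squares `q i` form a 2-chain with boundary the closed curve `γ`: in the group of formal
sums of paths, where the reversed path is the negative of the path, the sum of the oriented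
boundaries of the squares is the sum of the `m` consecutive arcs of `γ`. -/
def HasBoundary {X : Type} {ι : Type} [Fintype ι] (q : ι → ℝ × ℝ → X)
    (γ : AddCircle (2 * Real.pi) → X) : Prop :=
  ∃ m : ℕ, 0 < m ∧ ∀ Θ : (unitInterval → X) → ℝ,
    (∀ σ, Θ (fun t => σ (unitInterval.symm t)) = - Θ σ) →
    ∑ i, (Θ (fun t => q i (t, 0)) + Θ (fun t => q i (1, t))
      - Θ (fun t => q i (t, 1)) - Θ (fun t => q i (0, t))) =
    ∑ j ∈ Finset.range m, Θ (arc γ m j)

/-- **Theorem.** Let `γ` map the circle of length `2π` (with its arc-length distance) to a metric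
space `X` without shortcuts.  If finitely many Riemannian squares in `X` form a 2-chain with
boundary `γ` then their total area is at least `14 ζ(3) / π`. -/
theorem result {X : Type} [MetricSpace X] (γ : AddCircle (2 * Real.pi) → X)
    (nonshortcutting : ∀ s t, dist s t ≤ dist (γ s) (γ t))
    {ι : Type} [Fintype ι] (q : ι → ℝ × ℝ → X) (E F G : ι → ℝ × ℝ → ℝ)
    (squares : ∀ i, IsRiemannianSquare (q i) (E i) (F i) (G i))
    (boundary : HasBoundary q γ) :
    14 * (∑' n : ℕ, 1 / ((n : ℝ) + 1) ^ 3) / Real.pi ≤ ∑ i, squareArea (E i) (F i) (G i) := by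
  refine Pool.Agent.H87FA.area_ge_zeta q E F G (fun i => ?_) γ nonshortcutting boundary
  have h := squares i
  exact ⟨h.continuous_E, h.continuous_F, h.continuous_G, h.nonneg_E, h.nonneg_G, h.det_nonneg,
    h.dist_le⟩

end Pool.Agent.Results.MP_aeade1_gt.CircleFillingZetaThree
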