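import Pool.Agent.H87FA.Square

/-!
The lower bound for the area.
-/

open MeasureTheory Set Filter Topology

namespace Pool.Agent.H87FA

/-- open unit square -/
def osq : Set (ℝ × ℝ) := Set.Ioo (0 : ℝ) 1 ×ˢ Set.Ioo (0 : ℝ) 1

theorem osq_ae_sq : (osq : Set (ℝ × ℝ)) =ᵐ[volume] sq := by
  unfold osq sq
  rw [Measure.volume_eq_prod]
  exact Measure.set_prod_ae_eq Ioo_ae_eq_Ico Ioo_ae_eq_Ico

theorem osq_ae_csq : (osq : Set (ℝ × ℝ)) =ᵐ[volume] csq := by
  unfold osq csq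
  rw [Measure.volume_eq_prod]
  exact Measure.set_prod_ae_eq Ioo_ae_eq_Icc Ioo_ae_eq_Icc

theorem measurableSet_osq : MeasurableSet osq := measurableSet_Ioo.prod measurableSet_Ioo

variable {X : Type*} [MetricSpace X] {q : ℝ × ℝ → X} {E F G : ℝ × ℝ → ℝ}
variable {N : ℕ} [NeZero N]

/-- area of a Riemannian square -/
noncomputable def areaSq (E F G : ℝ × ℝ → ℝ) : ℝ := ∫ p in csq, Real.sqrt (E p * G p - F p ^ 2)

theorem IsRSq.integral_le (h : IsRSq q E F G) (Φ : X → ZMod N → ℝ)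
    (hΦ : ∀ x y j, |Φ x j - Φ y j| ≤ dist x y) (K : Finset (ZMod N)) :
    ∫ p in sq, omK K (fderiv ℝ (psi Φ q) p (1, 0)) (fderiv ℝ (psi Φ q) p (0, 1)) ≤
      (N : ℝ) ^ 2 / 4 * areaSq E F G := by
  obtain ⟨C, hC⟩ := h.exists_lip_psi Φ hΦ
  have hmeas : Measurable (fun p => omK K (fderiv ℝ (psi Φ q) p (1, 0))
      (fderiv ℝ (psi Φ q) p (0, 1))) := by
    have m1 : Measurable (fun p => fderiv ℝ (psi Φ q) p (1, 0)) :=
      measurable_fderiv_apply_const ℝ (psi Φ q) (1, 0)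
    have m2 : Measurable (fun p => fderiv ℝ (psi Φ q) p (0, 1)) :=
      measurable_fderiv_apply_const ℝ (psi Φ q) (0, 1)
    exact (omK K).continuous₂.measurable.comp (m1.prodMk m2)
  have hbound : ∀ p, ‖omK K (fderiv ℝ (psi Φ q) p (1, 0)) (fderiv ℝ (psi Φ q) p (0, 1))‖ ≤
      ‖omK K‖ * C * C := by
    intro p
    have hf : ‖fderiv ℝ (psi Φ q) p‖ ≤ C := norm_fderiv_le_of_lipschitz ℝ hC
    have hb : ∀ w : ℝ × ℝ, ‖w‖ ≤ 1 → ‖fderiv ℝ (psi Φ q) p w‖ ≤ C := by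
      intro w hw
      refine ((fderiv ℝ (psi Φ q) p).le_opNorm w).trans ?_
      calc ‖fderiv ℝ (psi Φ q) p‖ * ‖w‖ ≤ C * 1 :=
            mul_le_mul hf hw (norm_nonneg _) C.2
        _ = C := mul_one _
    have h1 := hb (1, 0) (by simp [Prod.norm_def])
    have h2 := hb (0, 1) (by simp [Prod.norm_def])
    refine ((omK K).le_opNorm₂ _ _).trans ?_
    have h0 : 0 ≤ ‖omK K‖ := norm_nonneg (omK K)
    have h3 : ‖omK K‖ * ‖fderiv ℝ (psi Φ q) p (1, 0)‖ ≤ ‖omK K‖ * C :=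
      mul_le_mul_of_nonneg_left h1 h0
    exact mul_le_mul h3 h2 (norm_nonneg _) (mul_nonneg h0 C.2)
  have hvol : volume osq ≠ ⊤ := by
    rw [measure_congr osq_ae_sq, volume_sq]; simp
  have hint1 : IntegrableOn (fun p => omK K (fderiv ℝ (psi Φ q) p (1, 0))
      (fderiv ℝ (psi Φ q) p (0, 1))) osq := by
    apply Measure.integrableOn_of_bounded (M := ‖omK K‖ * C * C) hvol hmeas.aestronglyMeasurable
    filter_upwards with p
    exact hbound p
  have hcont : ContinuousOn (fun p => Real.sqrt (E p * G p - F p ^ 2)) csq :=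
    Real.continuous_sqrt.comp_continuousOn ((h.contE.mul h.contG).sub (h.contF.pow 2))
  have hint2 : IntegrableOn (fun p => (N : ℝ) ^ 2 / 4 * Real.sqrt (E p * G p - F p ^ 2)) osq := by
    apply Integrable.const_mul
    have : IntegrableOn (fun p => Real.sqrt (E p * G p - F p ^ 2)) csq :=
      hcont.integrableOn_compact isCompact_csq
    exact this.mono_set (Set.prod_mono Set.Ioo_subset_Icc_self Set.Ioo_subset_Icc_self)
  unfold areaSq
  rw [← setIntegral_congr_set osq_ae_sq, ← setIntegral_congr_set osq_ae_csq,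
    ← integral_const_mul]
  apply setIntegral_mono_ae_restrict hint1 hint2
  rw [Filter.EventuallyLE, ae_restrict_iff' measurableSet_osq]
  filter_upwards [hC.ae_differentiableAt (μ := volume)] with p hp hpo
  have hpc : p ∈ csq := Set.prod_mono Set.Ioo_subset_Icc_self Set.Ioo_subset_Icc_self hpo
  rw [omK_apply]
  apply comass_bound_psd K _ _ (E p) (F p) (G p) (h.posE p hpc) (h.posG p hpc)
    (h.det_nonneg p hpc)
  intro j u v
  have hg := h.grad_bound Φ hΦ p hpo hp j u v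
  have e : fderiv ℝ (psi Φ q) p (u, v) j =
      fderiv ℝ (psi Φ q) p (1, 0) j * u + fderiv ℝ (psi Φ q) p (0, 1) j * v := by
    have e1 : ((u, v) : ℝ × ℝ) = u • (1, 0) + v • (0, 1) := by ext <;> simp
    rw [e1, map_add, map_smul, map_smul]
    simp only [Pi.add_apply, Pi.smul_apply, smul_eq_mul]
    ring
  rw [e] at hg
  exact hg

/-- boundary sums of a square in terms of its edges -/
theorem bdry_psi (Φ : X → ZMod N → ℝ) (q : ℝ × ℝ → X) (K : Finset (ZMod N)) (n : ℕ) :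
    bdry (omK K) (psi Φ q) n =
      edgeSum (omK K) Φ n (fun t => q (t, 0)) + edgeSum (omK K) Φ n (fun t => q (1, t))
      - edgeSum (omK K) Φ n (fun t => q (t, 1)) - edgeSum (omK K) Φ n (fun t => q (0, t)) := by
  unfold bdry edgeSum psi retr
  have h0 : (Set.projIcc (0 : ℝ) 1 zero_le_one 0 : ℝ) = 0 := by
    rw [Set.projIcc_of_mem zero_le_one ⟨le_rfl, zero_le_one⟩]
  have h1 : (Set.projIcc (0 : ℝ) 1 zero_le_one 1 : ℝ) = 1 := by
    rw [Set.projIcc_of_mem zero_le_one ⟨zero_le_one, le_rfl⟩]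
  simp only [h0, h1]

/-- a family of squares has the closed curve `γ` as boundary -/
def HasBdry {ι : Type*} [Fintype ι] (q : ι → ℝ × ℝ → X) (γ : Circ → X) : Prop :=
  ∃ m : ℕ, 0 < m ∧ ∀ Θ : (unitInterval → X) → ℝ,
    (∀ σ, Θ (fun t => σ (unitInterval.symm t)) = - Θ σ) →
    ∑ i, (Θ (fun t => q i (t, 0)) + Θ (fun t => q i (1, t))
      - Θ (fun t => q i (t, 1)) - Θ (fun t => q i (0, t))) =
    ∑ j ∈ Finset.range m, Θ (arc γ m j)

theorem exists_Phi (N : ℕ) [NeZero N] (γ : Circ → X) (hγ : ∀ s t, dist s t ≤ dist (γ s) (γ t)) :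
    ∃ Φ : X → ZMod N → ℝ, (∀ x y j, |Φ x j - Φ y j| ≤ dist x y) ∧
      ∀ θ j, Φ (γ θ) j = dist θ (cpt N j) := by
  have hinj : Function.Injective γ := by
    intro s t hst
    have := hγ s t
    rw [hst, dist_self] at this
    exact dist_le_zero.1 this
  have key : ∀ j : ZMod N, ∃ g : X → ℝ, LipschitzWith 1 g ∧ ∀ θ, g (γ θ) = dist θ (cpt N j) := by
    intro j
    let f : X → ℝ := fun x => dist (Function.invFun γ x) (cpt N j)
    have hf : LipschitzOnWith 1 f (Set.range γ) := by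
      apply LipschitzOnWith.of_dist_le_mul
      rintro _ ⟨s, rfl⟩ _ ⟨t, rfl⟩
      simp only [f, Function.leftInverse_invFun hinj s, Function.leftInverse_invFun hinj t,
        NNReal.coe_one, one_mul]
      rw [Real.dist_eq]
      exact (abs_dist_sub_le _ _ _).trans (hγ s t)
    obtain ⟨g, hg, hgf⟩ := hf.extend_real
    refine ⟨g, hg, fun θ => ?_⟩
    rw [← hgf ⟨θ, rfl⟩]
    simp only [f, Function.leftInverse_invFun hinj θ]
  choose g hg hgγ using key
  refine ⟨fun x j => g j x, ?_, fun θ j => hgγ j θ⟩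
  intro x y j
  have := (hg j).dist_le_mul x y
  simpa [Real.dist_eq] using this

/-- the bound with `N` vertices and a set of frequencies -/
theorem area_ge_N {ι : Type*} [Fintype ι] (q : ι → ℝ × ℝ → X) (E F G : ι → ℝ × ℝ → ℝ)
    (h : ∀ i, IsRSq (q i) (E i) (F i) (G i)) (γ : Circ → X)
    (hγ : ∀ s t, dist s t ≤ dist (γ s) (γ t)) (hb : HasBdry q γ) (H : ℕ) (hN : N = 2 * H)
    (K : Finset (ZMod N)) :
    (1 / 2) * (N * ∑ k ∈ K, ‖dhat N k‖ ^ 2 * (ZMod.stdAddChar k : ℂ).im) ≤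
      (N : ℝ) ^ 2 / 4 * ∑ i, areaSq (E i) (F i) (G i) := by
  obtain ⟨Φ, hΦ, hΦγ⟩ := exists_Phi N γ hγ
  obtain ⟨m, hm, hb⟩ := hb
  have hNpos : 0 < N := Nat.pos_of_ne_zero (NeZero.ne N)
  have hlim : Tendsto (fun n : ℕ => ∑ i, bdry (omK K) (psi Φ (q i)) n) atTop
      (𝓝 (∑ i, ∫ p in sq, omK K (fderiv ℝ (psi Φ (q i)) p (1, 0))
        (fderiv ℝ (psi Φ (q i)) p (0, 1)))) := by
    apply tendsto_finsetSum
    intro i _
    obtain ⟨C, hC⟩ := (h i).exists_lip_psi Φ hΦ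
    exact tendsto_bdry (omK K) (omK_antisymm K) _ C hC
  have hsub : Tendsto (fun r : ℕ => N * (r + 1)) atTop atTop := by
    apply tendsto_atTop_mono (f := fun r : ℕ => r) _ tendsto_id
    intro r
    nlinarith
  have hconst : ∀ r : ℕ, ∑ i, bdry (omK K) (psi Φ (q i)) (N * (r + 1)) =
      (1 / 2) * (N * ∑ k ∈ K, ‖dhat N k‖ ^ 2 * (ZMod.stdAddChar k : ℂ).im) := by
    intro r
    rw [← sum_arc H hN K γ Φ hΦγ m hm (r + 1) (Nat.succ_pos r)]
    rw [← hb (edgeSum (omK K) Φ (N * (r + 1)))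
      (edgeSum_symm (omK K) (omK_antisymm K) Φ _)]
    apply Finset.sum_congr rfl
    intro i _
    exact bdry_psi Φ (q i) K _
  have heq : (1 / 2) * (N * ∑ k ∈ K, ‖dhat N k‖ ^ 2 * (ZMod.stdAddChar k : ℂ).im) =
      ∑ i, ∫ p in sq, omK K (fderiv ℝ (psi Φ (q i)) p (1, 0))
        (fderiv ℝ (psi Φ (q i)) p (0, 1)) := by
    have h1 := hlim.comp hsub
    have h2 : Tendsto (fun r : ℕ => ∑ i, bdry (omK K) (psi Φ (q i)) (N * (r + 1))) atTop
        (𝓝 ((1 / 2) * (N * ∑ k ∈ K, ‖dhat N k‖ ^ 2 * (ZMod.stdAddChar k : ℂ).im))) := by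
      simp only [hconst]
      exact tendsto_const_nhds
    exact tendsto_nhds_unique h2 h1
  rw [heq, Finset.mul_sum]
  apply Finset.sum_le_sum
  intro i _
  exact (h i).integral_le Φ hΦ K

end Pool.Agent.H87FA
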