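import Mathlib

/-!
Finite Fourier analysis: the comass bound.
-/

open Finset ComplexConjugate

namespace Pool.Agent.H87FA

variable {N : ℕ} [NeZero N]

/-- Fourier sum at frequency `k` -/
noncomputable def four (k : ZMod N) (w : ZMod N → ℂ) : ℂ :=
  ∑ j, w j * ZMod.stdAddChar (k * j)

theorem parseval (w : ZMod N → ℂ) : ∑ k, ‖four k w‖ ^ 2 = N * ∑ j, ‖w j‖ ^ 2 := by
  have h : ((∑ k, ‖four k w‖ ^ 2 : ℝ) : ℂ) = ((N * ∑ j, ‖w j‖ ^ 2 : ℝ) : ℂ) := by
    push_cast
    have h1 : ∀ k : ZMod N, ((‖four k w‖ : ℂ)) ^ 2 =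
        ∑ j, ∑ l, w j * conj (w l) * ZMod.stdAddChar (k * (j - l)) := by
      intro k
      rw [← Complex.mul_conj', four, map_sum, Finset.sum_mul_sum]
      apply Finset.sum_congr rfl; intro j _
      apply Finset.sum_congr rfl; intro l _
      rw [map_mul (starRingEnd ℂ), ← AddChar.map_neg_eq_conj, mul_sub, sub_eq_add_neg,
        AddChar.map_add_eq_mul]
      ring
    rw [Finset.sum_congr rfl (fun k _ => h1 k), Finset.sum_comm]
    rw [Finset.mul_sum]
    apply Finset.sum_congr rfl; intro j _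
    rw [Finset.sum_comm]
    have h2 : ∀ l : ZMod N, ∑ k, w j * conj (w l) * ZMod.stdAddChar (k * (j - l)) =
        if l = j then (N : ℂ) * ‖w j‖ ^ 2 else 0 := by
      intro l
      rw [← Finset.mul_sum, AddChar.sum_mulShift _ (ZMod.isPrimitive_stdAddChar N)]
      by_cases hl : l = j
      · subst hl
        simp only [sub_self, if_true, ZMod.card]
        rw [Complex.mul_conj']
        ring
      · rw [if_neg hl, if_neg (fun h => hl (sub_eq_zero.mp h).symm)]
        simp
    rw [Finset.sum_congr rfl (fun l _ => h2 l)]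
    simp
  exact_mod_cast h

/-- coefficients of the symplectic form attached to a set of frequencies -/
noncomputable def coef (K : Finset (ZMod N)) (j l : ZMod N) : ℝ :=
  ∑ k ∈ K, (ZMod.stdAddChar (k * (l - j)) : ℂ).im

theorem coef_antisymm (K : Finset (ZMod N)) (j l : ZMod N) : coef K j l = - coef K l j := by
  unfold coef
  rw [← Finset.sum_neg_distrib]
  apply Finset.sum_congr rfl
  intro k _
  have : k * (l - j) = -(k * (j - l)) := by ring
  rw [this, AddChar.map_neg_eq_conj, Complex.conj_im]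

/-- the symplectic form in terms of Fourier sums -/
theorem sum_coef (K : Finset (ZMod N)) (x y : ZMod N → ℝ) :
    ∑ j, ∑ l, coef K j l * x j * y l =
      ∑ k ∈ K, (conj (four k (fun j => (x j : ℂ))) * four k (fun j => (y j : ℂ))).im := by
  have h1 : ∀ k : ZMod N, (conj (four k (fun j => (x j : ℂ))) * four k (fun j => (y j : ℂ))).im =
      ∑ j, ∑ l, (ZMod.stdAddChar (k * (l - j)) : ℂ).im * x j * y l := by
    intro k
    rw [four, four, map_sum, Finset.sum_mul_sum, Complex.im_sum]
    apply Finset.sum_congr rfl; intro j _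
    rw [Complex.im_sum]
    apply Finset.sum_congr rfl; intro l _
    rw [map_mul (starRingEnd ℂ), ← AddChar.map_neg_eq_conj, Complex.conj_ofReal]
    have : (x j : ℂ) * ZMod.stdAddChar (-(k * j)) * ((y l : ℂ) * ZMod.stdAddChar (k * l)) =
        ((x j * y l : ℝ) : ℂ) * ZMod.stdAddChar (k * (l - j)) := by
      rw [mul_sub, sub_eq_add_neg, AddChar.map_add_eq_mul]
      push_cast; ring
    rw [this, Complex.im_ofReal_mul]
    ring
  rw [Finset.sum_congr rfl (fun k _ => h1 k)]
  conv_rhs => rw [Finset.sum_comm]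
  apply Finset.sum_congr rfl; intro j _
  conv_rhs => rw [Finset.sum_comm]
  apply Finset.sum_congr rfl; intro l _
  unfold coef
  rw [Finset.sum_mul, Finset.sum_mul]

/-- the comass bound for vectors of norm at most one -/
theorem comass_bound (K : Finset (ZMod N)) (a b : ZMod N → ℝ)
    (hab : ∀ j, a j ^ 2 + b j ^ 2 ≤ 1) :
    ∑ j, ∑ l, coef K j l * a j * b l ≤ (N : ℝ) ^ 2 / 4 := by
  rw [sum_coef]
  have h1 : ∀ k : ZMod N, (conj (four k (fun j => (a j : ℂ))) * four k (fun j => (b j : ℂ))).im ≤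
      (1 / 4) * ‖four k (fun j => (a j : ℂ) - Complex.I * b j)‖ ^ 2 := by
    intro k
    set A := four k (fun j => (a j : ℂ)) with hA
    set B := four k (fun j => (b j : ℂ)) with hB
    have e : four k (fun j => (a j : ℂ) - Complex.I * b j) = A - Complex.I * B := by
      rw [hA, hB]
      unfold four
      rw [Finset.mul_sum, ← Finset.sum_sub_distrib]
      apply Finset.sum_congr rfl; intro j _
      ring
    rw [e, ← Complex.normSq_eq_norm_sq, Complex.normSq_apply]
    simp only [Complex.mul_im, Complex.conj_re, Complex.conj_im, Complex.sub_re, Complex.sub_im,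
      Complex.mul_re, Complex.I_re, Complex.I_im]
    nlinarith [sq_nonneg (A.re - B.im), sq_nonneg (A.im + B.re)]
  calc ∑ k ∈ K, (conj (four k (fun j => (a j : ℂ))) * four k (fun j => (b j : ℂ))).im
      ≤ ∑ k ∈ K, (1 / 4) * ‖four k (fun j => (a j : ℂ) - Complex.I * b j)‖ ^ 2 :=
        Finset.sum_le_sum fun k _ => h1 k
    _ ≤ ∑ k, (1 / 4) * ‖four k (fun j => (a j : ℂ) - Complex.I * b j)‖ ^ 2 :=
        Finset.sum_le_sum_of_subset_of_nonneg (Finset.subset_univ _)
          (fun _ _ _ => by positivity)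
    _ = (1 / 4) * (N * ∑ j, ‖(a j : ℂ) - Complex.I * b j‖ ^ 2) := by
        rw [← Finset.mul_sum, parseval]
    _ ≤ (1 / 4) * (N * ∑ _j : ZMod N, (1 : ℝ)) := by
        apply mul_le_mul_of_nonneg_left _ (by norm_num)
        apply mul_le_mul_of_nonneg_left _ (Nat.cast_nonneg _)
        apply Finset.sum_le_sum
        intro j _
        rw [← Complex.normSq_eq_norm_sq, Complex.normSq_apply]
        simp only [Complex.sub_re, Complex.sub_im, Complex.mul_re, Complex.mul_im, Complex.I_re,
          Complex.I_im, Complex.ofReal_re, Complex.ofReal_im]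
        have := hab j
        nlinarith
    _ = (N : ℝ) ^ 2 / 4 := by
        simp only [Finset.sum_const, Finset.card_univ, ZMod.card, nsmul_eq_mul, mul_one]
        ring

/-- the comass bound with respect to a positive definite quadratic form -/
theorem comass_bound_metric (K : Finset (ZMod N)) (p r : ZMod N → ℝ) (E F G : ℝ) (hE : 0 < E)
    (hD : F ^ 2 < E * G)
    (h : ∀ j, ∀ u v : ℝ, (p j * u + r j * v) ^ 2 ≤ E * u ^ 2 + 2 * F * u * v + G * v ^ 2) :
    ∑ j, ∑ l, coef K j l * p j * r l ≤ (N : ℝ) ^ 2 / 4 * Real.sqrt (E * G - F ^ 2) := by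
  set s := Real.sqrt E with hs
  set D := Real.sqrt (E * G - F ^ 2) with hDd
  have hs0 : 0 < s := Real.sqrt_pos.2 hE
  have hD0 : 0 < D := Real.sqrt_pos.2 (by linarith)
  have hs2 : s ^ 2 = E := Real.sq_sqrt hE.le
  have hD2 : D ^ 2 = E * G - F ^ 2 := Real.sq_sqrt (by linarith)
  let a : ZMod N → ℝ := fun j => p j / s
  let b : ZMod N → ℝ := fun j => (E * r j - F * p j) / (s * D)
  have hpa : ∀ j, p j = s * a j := fun j => by simp only [a]; field_simp
  have hrb : ∀ j, r j = (D * b j + F * a j) / s := fun j => by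
    simp only [a, b]
    field_simp
    rw [hs2]; ring
  have hab : ∀ j, a j ^ 2 + b j ^ 2 ≤ 1 := by
    intro j
    -- test vector u e1 + v e2 with (u, v) = (a, b)
    have key := h j (a j / s - F * b j / (s * D)) (s * b j / D)
    have e1 : p j * (a j / s - F * b j / (s * D)) + r j * (s * b j / D) = a j ^ 2 + b j ^ 2 := by
      rw [hpa, hrb]; field_simp; ring
    have e2 : E * (a j / s - F * b j / (s * D)) ^ 2 +
        2 * F * (a j / s - F * b j / (s * D)) * (s * b j / D) + G * (s * b j / D) ^ 2 =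
        a j ^ 2 + b j ^ 2 := by
      have hG : E * G = D ^ 2 + F ^ 2 := by rw [hD2]; ring
      have hE' : E = s ^ 2 := hs2.symm
      have hG' : G = (D ^ 2 + F ^ 2) / s ^ 2 := by
        rw [← hG, hE']; field_simp
      rw [hG', hE']
      field_simp
      ring
    rw [e1, e2] at key
    by_contra hcon
    push Not at hcon
    nlinarith
  have hzero : ∑ j, ∑ l, coef K j l * a j * a l = 0 := by
    have h1 : ∑ j, ∑ l, coef K j l * a j * a l = - ∑ j, ∑ l, coef K j l * a j * a l := by
      conv_lhs => rw [Finset.sum_comm]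
      rw [← Finset.sum_neg_distrib]
      apply Finset.sum_congr rfl; intro l _
      rw [← Finset.sum_neg_distrib]
      apply Finset.sum_congr rfl; intro j _
      rw [coef_antisymm K j l]; ring
    linarith
  have heq : ∑ j, ∑ l, coef K j l * p j * r l =
      D * ∑ j, ∑ l, coef K j l * a j * b l + F * ∑ j, ∑ l, coef K j l * a j * a l := by
    rw [Finset.mul_sum, Finset.mul_sum, ← Finset.sum_add_distrib]
    apply Finset.sum_congr rfl; intro j _
    rw [Finset.mul_sum, Finset.mul_sum, ← Finset.sum_add_distrib]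
    apply Finset.sum_congr rfl; intro l _
    rw [hpa j, hrb l]
    field_simp
  rw [heq, hzero, mul_zero, add_zero]
  have hb := comass_bound K a b hab
  nlinarith

/-- the comass bound with respect to a positive semidefinite quadratic form -/
theorem comass_bound_psd (K : Finset (ZMod N)) (p r : ZMod N → ℝ) (E F G : ℝ) (hE : 0 ≤ E)
    (hG : 0 ≤ G) (hD : F ^ 2 ≤ E * G)
    (h : ∀ j, ∀ u v : ℝ, (p j * u + r j * v) ^ 2 ≤ E * u ^ 2 + 2 * F * u * v + G * v ^ 2) :
    ∑ j, ∑ l, coef K j l * p j * r l ≤ (N : ℝ) ^ 2 / 4 * Real.sqrt (E * G - F ^ 2) := by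
  have key : ∀ ε : ℝ, 0 < ε → ∑ j, ∑ l, coef K j l * p j * r l ≤
      (N : ℝ) ^ 2 / 4 * Real.sqrt ((E + ε) * (G + ε) - F ^ 2) := by
    intro ε hε
    apply comass_bound_metric K p r (E + ε) F (G + ε) (by linarith) (by nlinarith)
    intro j u v
    have := h j u v
    nlinarith [sq_nonneg u, sq_nonneg v, mul_nonneg hε.le (sq_nonneg u),
      mul_nonneg hε.le (sq_nonneg v)]
  have hlim : Filter.Tendsto (fun ε : ℝ => (N : ℝ) ^ 2 / 4 *
      Real.sqrt ((E + ε) * (G + ε) - F ^ 2)) (nhdsWithin 0 (Set.Ioi 0))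
      (nhds ((N : ℝ) ^ 2 / 4 * Real.sqrt ((E + 0) * (G + 0) - F ^ 2))) := by
    apply Filter.Tendsto.mono_left _ nhdsWithin_le_nhds
    have : Continuous (fun ε : ℝ => (N : ℝ) ^ 2 / 4 *
      Real.sqrt ((E + ε) * (G + ε) - F ^ 2)) := by fun_prop
    exact this.tendsto 0
  rw [add_zero, add_zero] at hlim
  apply ge_of_tendsto hlim
  filter_upwards [self_mem_nhdsWithin] with ε hε
  exact key ε hε

end Pool.Agent.H87FA
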