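import Pool.Agent.H87FA.Stokes

/-!
The limit of the discrete Stokes theorem for Lipschitz maps of the unit square.
-/

open MeasureTheory Set Filter Topology

namespace Pool.Agent.H87FA

/-- the half open unit square -/
def sq : Set (ℝ × ℝ) := Set.Ico (0 : ℝ) 1 ×ˢ Set.Ico (0 : ℝ) 1

theorem measurableSet_sq : MeasurableSet sq := measurableSet_Ico.prod measurableSet_Ico

theorem volume_sq : volume sq = 1 := by
  unfold sq
  rw [Measure.volume_eq_prod, Measure.prod_prod]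
  simp

theorem floor_mem (n : ℕ) (hn : 0 < n) (x : ℝ) (hx : x ∈ Set.Ico (0 : ℝ) 1) :
    ∃ i : ℕ, i < n ∧ ⌊(n : ℝ) * x⌋ = (i : ℤ) := by
  have hn' : (0 : ℝ) < n := by exact_mod_cast hn
  have h0 : 0 ≤ ⌊(n : ℝ) * x⌋ := Int.floor_nonneg.2 (mul_nonneg hn'.le hx.1)
  have h1 : ⌊(n : ℝ) * x⌋ < n := by
    rw [Int.floor_lt]
    push_cast
    nlinarith [hx.2]
  obtain ⟨i, hi⟩ := Int.eq_ofNat_of_zero_le h0
  refine ⟨i, ?_, hi⟩
  rw [hi] at h1
  exact_mod_cast h1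

theorem measurable_step (n : ℕ) (G : ℤ → ℤ → ℝ) :
    Measurable (fun p : ℝ × ℝ => G ⌊(n : ℝ) * p.1⌋ ⌊(n : ℝ) * p.2⌋) := by
  have h1 : Measurable (fun z : ℤ × ℤ => G z.1 z.2) := measurable_of_countable _
  have h2 : Measurable (fun p : ℝ × ℝ => (⌊(n : ℝ) * p.1⌋, ⌊(n : ℝ) * p.2⌋)) := by
    apply Measurable.prodMk
    · exact Int.measurable_floor.comp (measurable_fst.const_mul _)
    · exact Int.measurable_floor.comp (measurable_snd.const_mul _)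
  exact h1.comp h2

theorem integral_floor2 (n : ℕ) (hn : 0 < n) (G : ℤ → ℤ → ℝ) :
    ∫ p in sq, G ⌊(n : ℝ) * p.1⌋ ⌊(n : ℝ) * p.2⌋ =
      (1 / (n : ℝ)) * ((1 / (n : ℝ)) *
        ∑ i ∈ Finset.range n, ∑ j ∈ Finset.range n, G i j) := by
  have hint : IntegrableOn (fun p : ℝ × ℝ => G ⌊(n : ℝ) * p.1⌋ ⌊(n : ℝ) * p.2⌋) sq := by
    apply Measure.integrableOn_of_bounded (M := ∑ i ∈ Finset.range n, ∑ j ∈ Finset.range n, |G i j|)
    · rw [volume_sq]; simp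
    · exact (measurable_step n G).aestronglyMeasurable
    · rw [ae_restrict_iff' measurableSet_sq]
      filter_upwards with p hp
      obtain ⟨i, hi, hi'⟩ := floor_mem n hn p.1 hp.1
      obtain ⟨j, hj, hj'⟩ := floor_mem n hn p.2 hp.2
      rw [hi', hj', Real.norm_eq_abs]
      calc |G i j| ≤ ∑ j ∈ Finset.range n, |G i j| :=
            Finset.single_le_sum (f := fun j : ℕ => |G i j|) (fun _ _ => abs_nonneg _)
              (Finset.mem_range.2 hj)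
        _ ≤ ∑ i ∈ Finset.range n, ∑ j ∈ Finset.range n, |G i j| :=
            Finset.single_le_sum (f := fun i : ℕ => ∑ j ∈ Finset.range n, |G i j|)
              (fun _ _ => Finset.sum_nonneg fun _ _ => abs_nonneg _) (Finset.mem_range.2 hi)
  unfold sq at hint ⊢
  rw [Measure.volume_eq_prod] at hint ⊢
  rw [setIntegral_prod _ hint]
  have h1 : ∀ x : ℝ, ∫ y in Set.Ico (0 : ℝ) 1, G ⌊(n : ℝ) * x⌋ ⌊(n : ℝ) * y⌋ =
      (1 / (n : ℝ)) * ∑ j ∈ Finset.range n, G ⌊(n : ℝ) * x⌋ j := by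
    intro x
    exact integral_floor n hn (G ⌊(n : ℝ) * x⌋)
  simp only [h1]
  rw [integral_const_mul]
  congr 1
  exact integral_floor n hn (fun i => ∑ j ∈ Finset.range n, G i j)

variable {W : Type*} [NormedAddCommGroup W] [NormedSpace ℝ W] [FiniteDimensional ℝ W]

/-- the four terms of the discrete line integral along the boundary of the unit square -/
noncomputable def bdry (ω : W →L[ℝ] W →L[ℝ] ℝ) (Ψ : ℝ × ℝ → W) (n : ℕ) : ℝ :=
  halfSum ω (fun i => Ψ ((i : ℝ) / n, 0)) n + halfSum ω (fun j => Ψ (1, (j : ℝ) / n)) n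
    - halfSum ω (fun i => Ψ ((i : ℝ) / n, 1)) n - halfSum ω (fun j => Ψ (0, (j : ℝ) / n)) n

/-- grid points -/
noncomputable def gp (Ψ : ℝ × ℝ → W) (n : ℕ) (i j : ℤ) : W := Ψ ((i : ℝ) / n, (j : ℝ) / n)

/-- rescaled area of a grid cell -/
noncomputable def cellF (ω : W →L[ℝ] W →L[ℝ] ℝ) (Ψ : ℝ × ℝ → W) (n : ℕ) (i j : ℤ) : ℝ :=
  (n : ℝ) * ((n : ℝ) * quad ω (gp Ψ n i j) (gp Ψ n (i + 1) j) (gp Ψ n (i + 1) (j + 1))
    (gp Ψ n i (j + 1)))

theorem integral_cellF (ω : W →L[ℝ] W →L[ℝ] ℝ) (hω : ∀ v w, ω v w = - ω w v)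
    (Ψ : ℝ × ℝ → W) (n : ℕ) (hn : 0 < n) :
    ∫ p in sq, cellF ω Ψ n ⌊(n : ℝ) * p.1⌋ ⌊(n : ℝ) * p.2⌋ = bdry ω Ψ n := by
  have hn' : (n : ℝ) ≠ 0 := by exact_mod_cast hn.ne'
  rw [integral_floor2 n hn]
  unfold cellF
  simp only [← Finset.mul_sum]
  have h := sum_quad ω hω (fun i j : ℕ => gp Ψ n i j) n
  push_cast at h
  rw [h]
  have e : ∀ a : ℝ, 1 / (n : ℝ) * (1 / (n : ℝ) * ((n : ℝ) * ((n : ℝ) * a))) = a := by
    intro a; field_simp
  rw [e]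
  unfold bdry gp
  simp only [Int.cast_natCast, Int.cast_zero, zero_div, div_self hn', Nat.cast_add,
    Nat.cast_one]

theorem norm_gp_sub (Ψ : ℝ × ℝ → W) (C : NNReal) (hΨ : LipschitzWith C Ψ) (n : ℕ) (hn : 0 < n)
    (i j i' j' : ℤ) (hi : |((i : ℝ) - i')| ≤ 1) (hj : |((j : ℝ) - j')| ≤ 1) :
    ‖(n : ℝ) • (gp Ψ n i j - gp Ψ n i' j')‖ ≤ C := by
  have hn' : (0 : ℝ) < n := by exact_mod_cast hn
  rw [norm_smul, Real.norm_eq_abs, abs_of_pos hn', ← dist_eq_norm]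
  have h := hΨ.dist_le_mul ((i : ℝ) / n, (j : ℝ) / n) ((i' : ℝ) / n, (j' : ℝ) / n)
  have hd : dist ((i : ℝ) / n, (j : ℝ) / n) ((i' : ℝ) / n, (j' : ℝ) / n) ≤ 1 / n := by
    rw [Prod.dist_eq, max_le_iff]
    simp only [Real.dist_eq]
    constructor
    · rw [← sub_div, abs_div, abs_of_pos hn']
      exact div_le_div_of_nonneg_right hi hn'.le
    · rw [← sub_div, abs_div, abs_of_pos hn']
      exact div_le_div_of_nonneg_right hj hn'.le
  unfold gp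
  calc (n : ℝ) * dist (Ψ ((i : ℝ) / n, (j : ℝ) / n)) (Ψ ((i' : ℝ) / n, (j' : ℝ) / n))
      ≤ n * (C * (1 / n)) := by
        apply mul_le_mul_of_nonneg_left _ hn'.le
        exact h.trans (mul_le_mul_of_nonneg_left hd C.2)
    _ = C := by field_simp

theorem cellF_eq (ω : W →L[ℝ] W →L[ℝ] ℝ) (Ψ : ℝ × ℝ → W) (n : ℕ) (i j : ℤ) :
    cellF ω Ψ n i j = (1 / 2) * ω ((n : ℝ) • (gp Ψ n (i + 1) (j + 1) - gp Ψ n i j))
      ((n : ℝ) • (gp Ψ n i (j + 1) - gp Ψ n (i + 1) j)) := by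
  unfold cellF quad
  simp only [map_smul, ContinuousLinearMap.smul_apply, smul_eq_mul]
  ring

theorem norm_cellF (ω : W →L[ℝ] W →L[ℝ] ℝ) (Ψ : ℝ × ℝ → W) (C : NNReal)
    (hΨ : LipschitzWith C Ψ) (n : ℕ) (i j : ℤ) :
    ‖cellF ω Ψ n i j‖ ≤ (1 / 2) * (‖ω‖ * C * C) := by
  rcases Nat.eq_zero_or_pos n with hn | hn
  · subst hn
    unfold cellF
    simp only [Nat.cast_zero, zero_mul, norm_zero]
    have := C.2
    positivity
  rw [cellF_eq, norm_mul]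
  have h1 := norm_gp_sub Ψ C hΨ n hn (i + 1) (j + 1) i j (by push_cast; simp) (by push_cast; simp)
  have h2 := norm_gp_sub Ψ C hΨ n hn i (j + 1) (i + 1) j (by push_cast; simp) (by push_cast; simp)
  have h3 : ‖(1 / 2 : ℝ)‖ = 1 / 2 := by norm_num
  rw [h3]
  apply mul_le_mul_of_nonneg_left _ (by norm_num)
  set a := (n : ℝ) • (gp Ψ n (i + 1) (j + 1) - gp Ψ n i j) with ha
  set b := (n : ℝ) • (gp Ψ n i (j + 1) - gp Ψ n (i + 1) j) with hb
  have h4 := C.2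
  have h5 := norm_nonneg ω
  have h6 : ‖ω‖ * ‖a‖ ≤ ‖ω‖ * C := mul_le_mul_of_nonneg_left h1 h5
  have h7 : ‖ω a b‖ ≤ ‖ω‖ * ‖a‖ * ‖b‖ := ω.le_opNorm₂ a b
  exact h7.trans (mul_le_mul h6 h2 (norm_nonneg _) (by positivity))

/-- difference quotients along converging pairs of points -/
theorem tendsto_diffquot (Ψ : ℝ × ℝ → W) (p : ℝ × ℝ) (L : (ℝ × ℝ) →L[ℝ] W)
    (hL : HasFDerivAt Ψ L p) (u v : ℕ → ℝ × ℝ) (e : ℝ × ℝ)
    (hu : ∀ n : ℕ, ‖u n - p‖ ≤ 2 * (1 / (n : ℝ))) (hv : ∀ n : ℕ, ‖v n - p‖ ≤ 2 * (1 / (n : ℝ)))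
    (he : ∀ n : ℕ, 0 < n → (n : ℝ) • (u n - v n) = e) :
    Tendsto (fun n : ℕ => (n : ℝ) • (Ψ (u n) - Ψ (v n))) atTop (𝓝 (L e)) := by
  have h0 : Tendsto (fun n : ℕ => 2 * (1 / (n : ℝ))) atTop (𝓝 0) := by
    have := tendsto_one_div_atTop_nhds_zero_nat (𝕜 := ℝ)
    simpa using this.const_mul 2
  have hup : Tendsto u atTop (𝓝 p) := by
    rw [tendsto_iff_norm_sub_tendsto_zero]
    exact squeeze_zero (fun _ => norm_nonneg _) hu h0
  have hvp : Tendsto v atTop (𝓝 p) := by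
    rw [tendsto_iff_norm_sub_tendsto_zero]
    exact squeeze_zero (fun _ => norm_nonneg _) hv h0
  have key : ∀ w : ℕ → ℝ × ℝ, (∀ n : ℕ, ‖w n - p‖ ≤ 2 * (1 / (n : ℝ))) → Tendsto w atTop (𝓝 p) →
      Tendsto (fun n : ℕ => (n : ℝ) • (Ψ (w n) - Ψ p - L (w n - p))) atTop (𝓝 0) := by
    intro w hw hwp
    have ho := hL.isLittleO.comp_tendsto hwp
    rw [Asymptotics.isLittleO_iff] at ho
    rw [Metric.tendsto_nhds]
    intro ε hε
    have h1 := ho (show (0 : ℝ) < ε / 4 by positivity)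
    filter_upwards [h1, eventually_gt_atTop 0] with n hn hn0
    have hn' : (0 : ℝ) < n := by exact_mod_cast hn0
    rw [dist_zero_right, norm_smul, Real.norm_eq_abs, abs_of_pos hn']
    simp only [Function.comp] at hn
    calc (n : ℝ) * ‖Ψ (w n) - Ψ p - L (w n - p)‖ ≤ n * (ε / 4 * ‖w n - p‖) :=
          mul_le_mul_of_nonneg_left hn hn'.le
      _ ≤ n * (ε / 4 * (2 * (1 / (n : ℝ)))) := by
          apply mul_le_mul_of_nonneg_left _ hn'.le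
          exact mul_le_mul_of_nonneg_left (hw n) (by positivity)
      _ = ε / 2 := by field_simp; ring
      _ < ε := by linarith
  have h1 := (key u hu hup).sub (key v hv hvp)
  rw [sub_zero] at h1
  have h2 : Tendsto (fun _ : ℕ => L e) atTop (𝓝 (L e)) := tendsto_const_nhds
  have h3 := h1.add h2
  rw [zero_add] at h3
  refine h3.congr' ?_
  filter_upwards [eventually_gt_atTop 0] with n hn0
  rw [← he n hn0, map_smul, map_sub]
  rw [← smul_sub, ← smul_add]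
  congr 1
  rw [map_sub, map_sub]
  abel

theorem tendsto_cellF (ω : W →L[ℝ] W →L[ℝ] ℝ) (hω : ∀ v w, ω v w = - ω w v)
    (Ψ : ℝ × ℝ → W) (p : ℝ × ℝ) (hp : DifferentiableAt ℝ Ψ p) :
    Tendsto (fun n : ℕ => cellF ω Ψ n ⌊(n : ℝ) * p.1⌋ ⌊(n : ℝ) * p.2⌋) atTop
      (𝓝 (ω (fderiv ℝ Ψ p (1, 0)) (fderiv ℝ Ψ p (0, 1)))) := by
  set L := fderiv ℝ Ψ p with hLdef
  have hL : HasFDerivAt Ψ L p := hp.hasFDerivAt
  -- bound for grid points near p
  have hb : ∀ (a b : ℤ), (a = 0 ∨ a = 1) → (b = 0 ∨ b = 1) → ∀ n : ℕ,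
      ‖((((⌊(n : ℝ) * p.1⌋ + a : ℤ) : ℝ) / n, ((⌊(n : ℝ) * p.2⌋ + b : ℤ) : ℝ) / n) : ℝ × ℝ)
        - (if n = 0 then (((((⌊(n : ℝ) * p.1⌋ + a : ℤ) : ℝ) / n,
          ((⌊(n : ℝ) * p.2⌋ + b : ℤ) : ℝ) / n) : ℝ × ℝ)) else p)‖ ≤ 2 * (1 / (n : ℝ)) := by
    intro a b ha hb n
    split_ifs with h
    · simp [h]
    · have hn' : (0 : ℝ) < n := by exact_mod_cast Nat.pos_of_ne_zero h
      have key : ∀ (x : ℝ) (c : ℤ), (c = 0 ∨ c = 1) →
          |((⌊(n : ℝ) * x⌋ + c : ℤ) : ℝ) / n - x| ≤ 2 * (1 / (n : ℝ)) := by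
        intro x c hc
        have h1 := Int.floor_le ((n : ℝ) * x)
        have h2 := Int.lt_floor_add_one ((n : ℝ) * x)
        have e : ((⌊(n : ℝ) * x⌋ + c : ℤ) : ℝ) / n - x =
            (((⌊(n : ℝ) * x⌋ : ℝ) + c) - n * x) / n := by
          push_cast; field_simp
        rw [e, abs_div, abs_of_pos hn', div_le_iff₀ hn']
        have e2 : 2 * (1 / (n : ℝ)) * n = 2 := by field_simp
        rw [e2, abs_le]
        rcases hc with rfl | rfl
        · push_cast; constructor <;> linarith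
        · push_cast; constructor <;> linarith
      rw [Prod.norm_def, max_le_iff]
      exact ⟨key p.1 a ha, key p.2 b hb⟩
  -- sequences of grid points, made equal to p at n = 0
  let gpt : ℤ → ℤ → ℕ → ℝ × ℝ := fun a b n =>
    if n = 0 then p else
      (((⌊(n : ℝ) * p.1⌋ + a : ℤ) : ℝ) / n, ((⌊(n : ℝ) * p.2⌋ + b : ℤ) : ℝ) / n)
  have hgpt : ∀ a b : ℤ, (a = 0 ∨ a = 1) → (b = 0 ∨ b = 1) → ∀ n : ℕ,
      ‖gpt a b n - p‖ ≤ 2 * (1 / (n : ℝ)) := by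
    intro a b ha hb' n
    by_cases h : n = 0
    · simp [gpt, h]
    · have := hb a b ha hb' n
      simpa [gpt, h] using this
  have hdiff : ∀ a b a' b' : ℤ, ∀ n : ℕ, 0 < n →
      (n : ℝ) • (gpt a b n - gpt a' b' n) = (((a - a' : ℤ) : ℝ), ((b - b' : ℤ) : ℝ)) := by
    intro a b a' b' n hn
    have hn' : (n : ℝ) ≠ 0 := by exact_mod_cast hn.ne'
    simp only [gpt, hn.ne', if_false]
    ext
    · simp only [Prod.smul_fst, Prod.fst_sub, smul_eq_mul]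
      push_cast; field_simp; ring
    · simp only [Prod.smul_snd, Prod.snd_sub, smul_eq_mul]
      push_cast; field_simp; ring
  have t1 := tendsto_diffquot Ψ p L hL (gpt 1 1) (gpt 0 0) _ (hgpt 1 1 (by simp) (by simp))
    (hgpt 0 0 (by simp) (by simp)) (hdiff 1 1 0 0)
  have t2 := tendsto_diffquot Ψ p L hL (gpt 0 1) (gpt 1 0) _ (hgpt 0 1 (by simp) (by simp))
    (hgpt 1 0 (by simp) (by simp)) (hdiff 0 1 1 0)
  have t3 : Tendsto (fun n : ℕ => (1 / 2 : ℝ) * ω ((n : ℝ) • (Ψ (gpt 1 1 n) - Ψ (gpt 0 0 n)))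
      ((n : ℝ) • (Ψ (gpt 0 1 n) - Ψ (gpt 1 0 n)))) atTop
      (𝓝 ((1 / 2 : ℝ) * ω (L (((1 - 0 : ℤ) : ℝ), ((1 - 0 : ℤ) : ℝ)))
        (L (((0 - 1 : ℤ) : ℝ), ((1 - 0 : ℤ) : ℝ))))) := by
    apply Tendsto.const_mul
    exact (ω.continuous₂.tendsto (_, _)).comp (t1.prodMk_nhds t2)
  have hfin : (1 / 2 : ℝ) * ω (L (((1 - 0 : ℤ) : ℝ), ((1 - 0 : ℤ) : ℝ)))
        (L (((0 - 1 : ℤ) : ℝ), ((1 - 0 : ℤ) : ℝ))) = ω (L (1, 0)) (L (0, 1)) := by
    have e1 : ((((1 - 0 : ℤ) : ℝ), ((1 - 0 : ℤ) : ℝ)) : ℝ × ℝ) = (1, 0) + (0, 1) := by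
      ext <;> simp
    have e2 : ((((0 - 1 : ℤ) : ℝ), ((1 - 0 : ℤ) : ℝ)) : ℝ × ℝ) = (0, 1) - (1, 0) := by
      ext <;> simp
    rw [e1, e2]
    simp only [map_add, map_sub, ContinuousLinearMap.add_apply]
    have h1 : ω (L (1, 0)) (L (1, 0)) = 0 := by
      have := hω (L (1, 0)) (L (1, 0)); linarith
    have h2 : ω (L (0, 1)) (L (0, 1)) = 0 := by
      have := hω (L (0, 1)) (L (0, 1)); linarith
    have h3 := hω (L (0, 1)) (L (1, 0))
    rw [h1, h2, h3]; ring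
  rw [hfin] at t3
  refine t3.congr' ?_
  filter_upwards [eventually_gt_atTop 0] with n hn
  rw [cellF_eq]
  simp only [gpt, hn.ne', if_false, gp, add_zero]

/-- **Stokes for Lipschitz maps of the square**: the discrete boundary sums converge. -/
theorem tendsto_bdry (ω : W →L[ℝ] W →L[ℝ] ℝ) (hω : ∀ v w, ω v w = - ω w v)
    (Ψ : ℝ × ℝ → W) (C : NNReal) (hΨ : LipschitzWith C Ψ) :
    Tendsto (fun n : ℕ => bdry ω Ψ n) atTop
      (𝓝 (∫ p in sq, ω (fderiv ℝ Ψ p (1, 0)) (fderiv ℝ Ψ p (0, 1)))) := by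
  have h : Tendsto (fun n : ℕ => ∫ p in sq, cellF ω Ψ n ⌊(n : ℝ) * p.1⌋ ⌊(n : ℝ) * p.2⌋) atTop
      (𝓝 (∫ p in sq, ω (fderiv ℝ Ψ p (1, 0)) (fderiv ℝ Ψ p (0, 1)))) := by
    apply tendsto_integral_of_dominated_convergence (fun _ => (1 / 2) * (‖ω‖ * C * C))
    · intro n
      exact (measurable_step n (cellF ω Ψ n)).aestronglyMeasurable
    · exact integrableOn_const (by rw [volume_sq]; simp) enorm_ne_top
    · intro n
      filter_upwards with p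
      exact norm_cellF ω Ψ C hΨ n _ _
    · apply ae_restrict_of_ae
      filter_upwards [hΨ.ae_differentiableAt (μ := volume)] with p hp
      exact tendsto_cellF ω hω Ψ p hp
  refine h.congr' ?_
  filter_upwards [eventually_gt_atTop 0] with n hn
  exact integral_cellF ω hω Ψ n hn

end Pool.Agent.H87FA
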