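import Pool.Agent.H87FA.Bound

/-!
Riemannian squares.
-/

open MeasureTheory Set Filter Topology

namespace Pool.Agent.H87FA

/-- closed unit square -/
def csq : Set (ℝ × ℝ) := Set.Icc (0 : ℝ) 1 ×ˢ Set.Icc (0 : ℝ) 1

/-- squared length of a vector -/
noncomputable def qf (E F G : ℝ × ℝ → ℝ) (p : ℝ × ℝ) (u v : ℝ) : ℝ :=
  E p * u ^ 2 + 2 * F p * u * v + G p * v ^ 2

/-- length of a straight segment -/
noncomputable def segLen (E F G : ℝ × ℝ → ℝ) (p p' : ℝ × ℝ) : ℝ :=
  ∫ t in (0 : ℝ)..1, Real.sqrt (qf E F G (p.1 + t * (p'.1 - p.1), p.2 + t * (p'.2 - p.2))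
    (p'.1 - p.1) (p'.2 - p.2))

/-- Riemannian square in a metric space -/
structure IsRSq {X : Type*} [MetricSpace X] (q : ℝ × ℝ → X) (E F G : ℝ × ℝ → ℝ) : Prop where
  contE : ContinuousOn E csq
  contF : ContinuousOn F csq
  contG : ContinuousOn G csq
  posE : ∀ p ∈ csq, 0 ≤ E p
  posG : ∀ p ∈ csq, 0 ≤ G p
  det_nonneg : ∀ p ∈ csq, F p ^ 2 ≤ E p * G p
  dist_le : ∀ p ∈ csq, ∀ p' ∈ csq, dist (q p) (q p') ≤ segLen E F G p p'

theorem isCompact_csq : IsCompact csq := isCompact_Icc.prod isCompact_Icc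

theorem seg_mem {p p' : ℝ × ℝ} (hp : p ∈ csq) (hp' : p' ∈ csq) {t : ℝ} (h0 : 0 ≤ t) (h1 : t ≤ 1) :
    (p.1 + t * (p'.1 - p.1), p.2 + t * (p'.2 - p.2)) ∈ csq := by
  obtain ⟨⟨a1, a2⟩, ⟨a3, a4⟩⟩ := hp
  obtain ⟨⟨b1, b2⟩, ⟨b3, b4⟩⟩ := hp'
  refine ⟨⟨?_, ?_⟩, ⟨?_, ?_⟩⟩ <;> nlinarith

variable {X : Type*} [MetricSpace X] {q : ℝ × ℝ → X} {E F G : ℝ × ℝ → ℝ}

theorem IsRSq.exists_lip (h : IsRSq q E F G) : ∃ C : NNReal, ∀ p ∈ csq, ∀ p' ∈ csq,
    dist (q p) (q p') ≤ C * dist p p' := by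
  obtain ⟨ME, hME⟩ := isCompact_csq.exists_bound_of_continuousOn h.contE
  obtain ⟨MF, hMF⟩ := isCompact_csq.exists_bound_of_continuousOn h.contF
  obtain ⟨MG, hMG⟩ := isCompact_csq.exists_bound_of_continuousOn h.contG
  set M := |ME| + 2 * |MF| + |MG| with hM
  refine ⟨⟨Real.sqrt M, Real.sqrt_nonneg _⟩, ?_⟩
  intro p hp p' hp'
  refine (h.dist_le p hp p' hp').trans ?_
  unfold segLen
  have hbound : ∀ t ∈ Set.uIoc (0 : ℝ) 1, ‖Real.sqrt (qf E F G
      (p.1 + t * (p'.1 - p.1), p.2 + t * (p'.2 - p.2)) (p'.1 - p.1) (p'.2 - p.2))‖ ≤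
      Real.sqrt M * dist p p' := by
    intro t ht
    rw [Set.uIoc_of_le zero_le_one] at ht
    have hmem := seg_mem hp hp' ht.1.le ht.2
    set z := (p.1 + t * (p'.1 - p.1), p.2 + t * (p'.2 - p.2)) with hz
    rw [Real.norm_eq_abs, abs_of_nonneg (Real.sqrt_nonneg _)]
    have hd1 : |p'.1 - p.1| ≤ dist p p' := by
      rw [Prod.dist_eq, ← Real.dist_eq, dist_comm]; exact le_max_left _ _
    have hd2 : |p'.2 - p.2| ≤ dist p p' := by
      rw [Prod.dist_eq, ← Real.dist_eq, dist_comm]; exact le_max_right _ _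
    have hdn : 0 ≤ dist p p' := dist_nonneg
    have e1 : (p'.1 - p.1) ^ 2 ≤ dist p p' ^ 2 := by
      rw [← sq_abs]; exact pow_le_pow_left₀ (abs_nonneg _) hd1 2
    have e2 : (p'.2 - p.2) ^ 2 ≤ dist p p' ^ 2 := by
      rw [← sq_abs]; exact pow_le_pow_left₀ (abs_nonneg _) hd2 2
    have e3 : |(p'.1 - p.1) * (p'.2 - p.2)| ≤ dist p p' ^ 2 := by
      rw [abs_mul, pow_two]; exact mul_le_mul hd1 hd2 (abs_nonneg _) hdn
    have f1 : |E z| ≤ |ME| := (hME z hmem).trans (le_abs_self _)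
    have f2 : |F z| ≤ |MF| := (hMF z hmem).trans (le_abs_self _)
    have f3 : |G z| ≤ |MG| := (hMG z hmem).trans (le_abs_self _)
    have hle : qf E F G z (p'.1 - p.1) (p'.2 - p.2) ≤ M * dist p p' ^ 2 := by
      unfold qf
      have g1 : E z * (p'.1 - p.1) ^ 2 ≤ |ME| * dist p p' ^ 2 :=
        mul_le_mul ((le_abs_self _).trans f1) e1 (sq_nonneg _) (abs_nonneg _)
      have g3 : G z * (p'.2 - p.2) ^ 2 ≤ |MG| * dist p p' ^ 2 :=
        mul_le_mul ((le_abs_self _).trans f3) e2 (sq_nonneg _) (abs_nonneg _)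
      have g2 : F z * ((p'.1 - p.1) * (p'.2 - p.2)) ≤ |MF| * dist p p' ^ 2 := by
        refine (le_abs_self _).trans ?_
        rw [abs_mul]
        exact mul_le_mul f2 e3 (abs_nonneg _) (abs_nonneg _)
      rw [hM]
      nlinarith
    calc Real.sqrt (qf E F G z (p'.1 - p.1) (p'.2 - p.2)) ≤ Real.sqrt (M * dist p p' ^ 2) :=
          Real.sqrt_le_sqrt hle
      _ = Real.sqrt M * dist p p' := by
          rw [Real.sqrt_mul' _ (sq_nonneg _), Real.sqrt_sq hdn]
  have := intervalIntegral.norm_integral_le_of_norm_le_const hbound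
  rw [sub_zero, abs_one, mul_one] at this
  refine (le_abs_self _).trans ?_
  rw [← Real.norm_eq_abs]
  exact this

/-- retraction of the plane to the square -/
noncomputable def retr (p : ℝ × ℝ) : ℝ × ℝ :=
  ((Set.projIcc 0 1 zero_le_one p.1 : ℝ), (Set.projIcc 0 1 zero_le_one p.2 : ℝ))

theorem retr_mem (p : ℝ × ℝ) : retr p ∈ csq :=
  ⟨(Set.projIcc 0 1 zero_le_one p.1).2, (Set.projIcc 0 1 zero_le_one p.2).2⟩

theorem retr_of_mem {p : ℝ × ℝ} (hp : p ∈ csq) : retr p = p := by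
  unfold retr
  rw [Set.projIcc_of_mem zero_le_one hp.1, Set.projIcc_of_mem zero_le_one hp.2]

theorem retr_lip (p p' : ℝ × ℝ) : dist (retr p) (retr p') ≤ dist p p' := by
  have h : ∀ x y : ℝ, dist (Set.projIcc 0 1 zero_le_one x : ℝ) (Set.projIcc 0 1 zero_le_one y : ℝ)
      ≤ dist x y := by
    intro x y
    have := (LipschitzWith.projIcc (a := (0 : ℝ)) (b := 1) (h := zero_le_one)).dist_le_mul x y
    simpa [Subtype.dist_eq] using this
  rw [Prod.dist_eq, Prod.dist_eq]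
  exact max_le_max (h _ _) (h _ _)

variable {N : ℕ} [NeZero N]

/-- coordinates of a square -/
noncomputable def psi (Φ : X → ZMod N → ℝ) (q : ℝ × ℝ → X) (p : ℝ × ℝ) : ZMod N → ℝ :=
  Φ (q (retr p))

theorem IsRSq.exists_lip_psi (h : IsRSq q E F G) (Φ : X → ZMod N → ℝ)
    (hΦ : ∀ x y j, |Φ x j - Φ y j| ≤ dist x y) : ∃ C : NNReal, LipschitzWith C (psi Φ q) := by
  obtain ⟨C, hC⟩ := h.exists_lip
  refine ⟨C, LipschitzWith.of_dist_le_mul ?_⟩
  intro p p'
  have h1 : dist (psi Φ q p) (psi Φ q p') ≤ dist (q (retr p)) (q (retr p')) := by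
    rw [dist_pi_le_iff dist_nonneg]
    intro j
    rw [Real.dist_eq]
    exact hΦ _ _ _
  refine h1.trans ((hC _ (retr_mem p) _ (retr_mem p')).trans ?_)
  exact mul_le_mul_of_nonneg_left (retr_lip p p') C.2

/-- the gradient bound at interior points of differentiability -/
theorem IsRSq.grad_bound (h : IsRSq q E F G) (Φ : X → ZMod N → ℝ)
    (hΦ : ∀ x y j, |Φ x j - Φ y j| ≤ dist x y) (p : ℝ × ℝ)
    (hp : p ∈ Set.Ioo (0 : ℝ) 1 ×ˢ Set.Ioo (0 : ℝ) 1) (hd : DifferentiableAt ℝ (psi Φ q) p)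
    (j : ZMod N) (u v : ℝ) :
    (fderiv ℝ (psi Φ q) p (u, v) j) ^ 2 ≤ qf E F G p u v := by
  have hpc : p ∈ csq := ⟨Set.Ioo_subset_Icc_self hp.1, Set.Ioo_subset_Icc_self hp.2⟩
  have hnhds : csq ∈ 𝓝 p := by
    have h1 : Set.Ioo (0 : ℝ) 1 ×ˢ Set.Ioo (0 : ℝ) 1 ∈ 𝓝 p :=
      (isOpen_Ioo.prod isOpen_Ioo).mem_nhds hp
    exact Filter.mem_of_superset h1
      (Set.prod_mono Set.Ioo_subset_Icc_self Set.Ioo_subset_Icc_self)
  have hpd : 0 ≤ qf E F G p u v := by
    unfold qf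
    have h1 := h.posE p hpc
    have h2 := h.det_nonneg p hpc
    have h4 := h.posG p hpc
    rcases h1.eq_or_lt with h0 | h0
    · have hF : F p = 0 := by
        rw [← h0, zero_mul] at h2
        exact pow_eq_zero_iff (two_ne_zero) |>.1 (le_antisymm h2 (sq_nonneg _))
      rw [← h0, hF]
      nlinarith [mul_nonneg h4 (sq_nonneg v)]
    · have h3 : 0 ≤ E p * (E p * u ^ 2 + 2 * F p * u * v + G p * v ^ 2) := by
        nlinarith [sq_nonneg (E p * u + F p * v), sq_nonneg v,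
          mul_nonneg (sub_nonneg.2 h2) (sq_nonneg v)]
      exact nonneg_of_mul_nonneg_right h3 h0
  -- continuity of the length of the vector (u, v)
  have hcont : ContinuousAt (fun z => Real.sqrt (qf E F G z u v)) p := by
    have cE : ContinuousAt E p := h.contE.continuousAt hnhds
    have cF : ContinuousAt F p := h.contF.continuousAt hnhds
    have cG : ContinuousAt G p := h.contG.continuousAt hnhds
    apply Real.continuous_sqrt.continuousAt.comp
    unfold qf
    exact ((cE.mul continuousAt_const).add (((continuousAt_const.mul cF).mul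
      continuousAt_const).mul continuousAt_const)).add (cG.mul continuousAt_const)
  -- derivative along the line
  set D := fderiv ℝ (psi Φ q) p (u, v) j with hD
  have hline : HasDerivAt (fun t : ℝ => psi Φ q (p + t • (u, v)) j) D 0 := by
    have h1 : HasDerivAt (fun t : ℝ => p + t • ((u, v) : ℝ × ℝ)) ((u, v) : ℝ × ℝ) 0 := by
      have := ((hasDerivAt_id (0 : ℝ)).smul_const ((u, v) : ℝ × ℝ)).const_add p
      simpa using this
    have h2 : HasFDerivAt (psi Φ q) (fderiv ℝ (psi Φ q) p) (p + (0 : ℝ) • ((u, v) : ℝ × ℝ)) := by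
      rw [zero_smul, add_zero]; exact hd.hasFDerivAt
    have h3 := h2.comp_hasDerivAt (0 : ℝ) h1
    exact (hasDerivAt_pi.1 h3) j
  have hslope : Tendsto (fun t : ℝ => |t⁻¹ * (psi Φ q (p + t • (u, v)) j - psi Φ q p j)|)
      (𝓝[>] 0) (𝓝 |D|) := by
    have h1 := (hasDerivAt_iff_tendsto_slope_zero.1 hline)
    have h2 : Tendsto (fun t : ℝ => t⁻¹ * (psi Φ q (p + t • (u, v)) j - psi Φ q p j))
        (𝓝[>] 0) (𝓝 D) := by
      refine (h1.mono_left (nhdsWithin_mono _ (fun t (ht : 0 < t) => ht.ne'))).congr ?_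
      intro t
      simp
    exact h2.abs
  have habs : ∀ ε > 0, |D| ≤ Real.sqrt (qf E F G p u v) + ε := by
    intro ε hε
    -- neighbourhood where everything is fine
    have hev1 : ∀ᶠ z in 𝓝 p, Real.sqrt (qf E F G z u v) ≤ Real.sqrt (qf E F G p u v) + ε := by
      have := hcont.eventually (gt_mem_nhds (lt_add_of_pos_right
        (Real.sqrt (qf E F G p u v)) hε))
      filter_upwards [this] with z hz using hz.le
    obtain ⟨δ, hδ, hball⟩ := Metric.eventually_nhds_iff.1 (hev1.and hnhds)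
    -- for small t
    have hsmall : ∀ᶠ t in 𝓝[>] (0 : ℝ),
        |t⁻¹ * (psi Φ q (p + t • (u, v)) j - psi Φ q p j)| ≤
          Real.sqrt (qf E F G p u v) + ε := by
      have hpos : 0 < δ / (‖((u, v) : ℝ × ℝ)‖ + 1) := by positivity
      filter_upwards [Ioo_mem_nhdsGT hpos] with t ht
      have ht0 : 0 < t := ht.1
      have hnorm : ‖t • ((u, v) : ℝ × ℝ)‖ < δ := by
        rw [norm_smul, Real.norm_eq_abs, abs_of_pos ht0]
        have h2 := ht.2
        rw [lt_div_iff₀ (by positivity)] at h2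
        nlinarith [norm_nonneg ((u, v) : ℝ × ℝ)]
      have hin : ∀ s : ℝ, 0 ≤ s → s ≤ 1 → dist (p + (s * t) • ((u, v) : ℝ × ℝ)) p < δ := by
        intro s hs0 hs1
        rw [dist_eq_norm, add_sub_cancel_left, mul_smul, norm_smul, Real.norm_eq_abs,
          abs_of_nonneg hs0]
        nlinarith [norm_nonneg (t • ((u, v) : ℝ × ℝ))]
      have hmem : p + t • ((u, v) : ℝ × ℝ) ∈ csq := by
        have := (hball (hin 1 zero_le_one le_rfl)).2
        rwa [one_mul] at this
      have hdist : |psi Φ q (p + t • (u, v)) j - psi Φ q p j| ≤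
          t * (Real.sqrt (qf E F G p u v) + ε) := by
        unfold psi
        rw [retr_of_mem hmem, retr_of_mem hpc]
        refine (hΦ _ _ _).trans ?_
        rw [dist_comm]
        refine (h.dist_le p hpc _ hmem).trans ?_
        unfold segLen
        have e1 : (p + t • ((u, v) : ℝ × ℝ)).1 - p.1 = t * u := by
          simp
        have e2 : (p + t • ((u, v) : ℝ × ℝ)).2 - p.2 = t * v := by
          simp
        rw [e1, e2]
        have hb : ∀ s ∈ Set.uIoc (0 : ℝ) 1, ‖Real.sqrt (qf E F G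
            (p.1 + s * (t * u), p.2 + s * (t * v)) (t * u) (t * v))‖ ≤
            t * (Real.sqrt (qf E F G p u v) + ε) := by
          intro s hs
          rw [Set.uIoc_of_le zero_le_one] at hs
          rw [Real.norm_eq_abs, abs_of_nonneg (Real.sqrt_nonneg _)]
          have e3 : (p.1 + s * (t * u), p.2 + s * (t * v)) =
              p + (s * t) • ((u, v) : ℝ × ℝ) := by
            ext <;> simp [mul_assoc]
          rw [e3]
          have e4 : qf E F G (p + (s * t) • ((u, v) : ℝ × ℝ)) (t * u) (t * v) =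
              t ^ 2 * qf E F G (p + (s * t) • ((u, v) : ℝ × ℝ)) u v := by
            unfold qf; ring
          rw [e4, Real.sqrt_mul (sq_nonneg t), Real.sqrt_sq ht0.le]
          exact mul_le_mul_of_nonneg_left (hball (hin s hs.1.le hs.2)).1 ht0.le
        have := intervalIntegral.norm_integral_le_of_norm_le_const hb
        rw [sub_zero, abs_one, mul_one] at this
        exact (le_abs_self _).trans this
      rw [abs_mul, abs_inv, abs_of_pos ht0]
      rw [inv_mul_le_iff₀ ht0]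
      exact hdist
    exact le_of_tendsto hslope hsmall
  have hfin : |D| ≤ Real.sqrt (qf E F G p u v) := le_of_forall_pos_le_add habs
  calc D ^ 2 = |D| ^ 2 := (sq_abs D).symm
    _ ≤ Real.sqrt (qf E F G p u v) ^ 2 := pow_le_pow_left₀ (abs_nonneg _) hfin 2
    _ = qf E F G p u v := Real.sq_sqrt hpd

end Pool.Agent.H87FA
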