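import Mathlib

/-!
Discrete Stokes theorem for Lipschitz maps of the unit square, and its limit.
-/

open MeasureTheory Set Filter Topology

namespace Pool.Agent.H87FA

section Algebra

variable {W : Type*} [NormedAddCommGroup W] [NormedSpace ℝ W]

/-- half of the sum of `ω(P i, P (i+1))` -/
noncomputable def halfSum (ω : W →L[ℝ] W →L[ℝ] ℝ) (P : ℕ → W) (n : ℕ) : ℝ :=
  (1 / 2) * ∑ i ∈ Finset.range n, ω (P i) (P (i + 1))

/-- shoelace form of a quadrilateral -/
noncomputable def quad (ω : W →L[ℝ] W →L[ℝ] ℝ) (A B C D : W) : ℝ :=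
  (1 / 2) * ω (C - A) (D - B)

theorem quad_eq (ω : W →L[ℝ] W →L[ℝ] ℝ) (hω : ∀ v w, ω v w = - ω w v) (A B C D : W) :
    quad ω A B C D = (1 / 2) * ω A B + (1 / 2) * ω B C - (1 / 2) * ω D C - (1 / 2) * ω A D := by
  unfold quad
  simp only [map_sub, ContinuousLinearMap.sub_apply]
  rw [hω D C, hω C B]
  ring

theorem sum_quad (ω : W →L[ℝ] W →L[ℝ] ℝ) (hω : ∀ v w, ω v w = - ω w v)
    (P : ℕ → ℕ → W) (n : ℕ) :
    ∑ i ∈ Finset.range n, ∑ j ∈ Finset.range n,
      quad ω (P i j) (P (i + 1) j) (P (i + 1) (j + 1)) (P i (j + 1)) =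
      halfSum ω (fun i => P i 0) n + halfSum ω (fun j => P n j) n
        - halfSum ω (fun i => P i n) n - halfSum ω (fun j => P 0 j) n := by
  have h1 : ∀ i j, quad ω (P i j) (P (i + 1) j) (P (i + 1) (j + 1)) (P i (j + 1)) =
      ((1 / 2) * ω (P i j) (P (i + 1) j) - (1 / 2) * ω (P i (j + 1)) (P (i + 1) (j + 1))) +
      ((1 / 2) * ω (P (i + 1) j) (P (i + 1) (j + 1)) - (1 / 2) * ω (P i j) (P i (j + 1))) := by
    intro i j
    rw [quad_eq ω hω]; ring
  simp only [h1, Finset.sum_add_distrib]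
  have h2 : ∀ i, ∑ j ∈ Finset.range n, ((1 / 2) * ω (P i j) (P (i + 1) j) -
      (1 / 2) * ω (P i (j + 1)) (P (i + 1) (j + 1))) =
      (1 / 2) * ω (P i 0) (P (i + 1) 0) - (1 / 2) * ω (P i n) (P (i + 1) n) := by
    intro i
    exact Finset.sum_range_sub' (fun j => (1 / 2) * ω (P i j) (P (i + 1) j)) n
  have h3 : ∀ j, ∑ i ∈ Finset.range n, ((1 / 2) * ω (P (i + 1) j) (P (i + 1) (j + 1)) -
      (1 / 2) * ω (P i j) (P i (j + 1))) =
      (1 / 2) * ω (P n j) (P n (j + 1)) - (1 / 2) * ω (P 0 j) (P 0 (j + 1)) := by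
    intro j
    exact Finset.sum_range_sub (fun i => (1 / 2) * ω (P i j) (P i (j + 1))) n
  rw [Finset.sum_congr rfl (fun i _ => h2 i), Finset.sum_comm (γ := ℕ),
    Finset.sum_congr rfl (fun j _ => h3 j)]
  simp only [Finset.sum_sub_distrib, halfSum, Finset.mul_sum]
  ring

end Algebra

section StepIntegral

theorem integral_floor (n : ℕ) (hn : 0 < n) (g : ℤ → ℝ) :
    ∫ x in Set.Ico (0 : ℝ) 1, g ⌊(n : ℝ) * x⌋ = (1 / (n : ℝ)) * ∑ i ∈ Finset.range n, g i := by
  have hn' : (0 : ℝ) < n := by exact_mod_cast hn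
  rw [integral_Ico_eq_integral_Ioo, ← integral_Ioc_eq_integral_Ioo,
    ← intervalIntegral.integral_of_le zero_le_one]
  have hcell : ∀ k < n, ∫ x in ((k : ℝ) / n)..(((k + 1 : ℕ) : ℝ) / n), g ⌊(n : ℝ) * x⌋ =
      (1 / (n : ℝ)) * g k := by
    intro k _
    have hle : (k : ℝ) / n ≤ ((k + 1 : ℕ) : ℝ) / n := by
      apply div_le_div_of_nonneg_right _ hn'.le
      push_cast; linarith
    rw [intervalIntegral.integral_of_le hle, integral_Ioc_eq_integral_Ioo,
      ← integral_Ico_eq_integral_Ioo]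
    rw [setIntegral_congr_fun (g := fun _ => g k) measurableSet_Ico]
    · rw [setIntegral_const]
      simp only [smul_eq_mul, measureReal_def, Real.volume_Ico]
      rw [ENNReal.toReal_ofReal (by linarith)]
      push_cast
      congr 1
      field_simp
      ring
    · intro x hx
      have h1 : ⌊(n : ℝ) * x⌋ = (k : ℤ) := by
        rw [Int.floor_eq_iff]
        have hx1 := hx.1
        have hx2 := hx.2
        rw [div_le_iff₀ hn'] at hx1
        rw [lt_div_iff₀ hn'] at hx2
        push_cast at hx2 ⊢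
        constructor <;> nlinarith
      simp only [h1]
  have hint : ∀ k < n, IntervalIntegrable (fun x => g ⌊(n : ℝ) * x⌋) volume
      ((k : ℝ) / n) (((k + 1 : ℕ) : ℝ) / n) := by
    intro k _
    have hle : (k : ℝ) / n ≤ ((k + 1 : ℕ) : ℝ) / n := by
      apply div_le_div_of_nonneg_right _ hn'.le
      push_cast; linarith
    rw [intervalIntegrable_iff_integrableOn_Ico_of_le hle]
    have : IntegrableOn (fun _ : ℝ => g k) (Set.Ico ((k : ℝ) / n) (((k + 1 : ℕ) : ℝ) / n)) :=
      integrableOn_const (by simp) (by simp)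
    refine this.congr_fun ?_ measurableSet_Ico
    intro x hx
    have h1 : ⌊(n : ℝ) * x⌋ = (k : ℤ) := by
      rw [Int.floor_eq_iff]
      have hx1 := hx.1
      have hx2 := hx.2
      rw [div_le_iff₀ hn'] at hx1
      rw [lt_div_iff₀ hn'] at hx2
      push_cast at hx2 ⊢
      constructor <;> nlinarith
    simp only [h1]
  have hsum := intervalIntegral.sum_integral_adjacent_intervals (a := fun k : ℕ => (k : ℝ) / n)
    (f := fun x => g ⌊(n : ℝ) * x⌋) (μ := volume) (n := n) hint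
  simp only [Nat.cast_zero, zero_div, div_self hn'.ne'] at hsum
  rw [← hsum, Finset.mul_sum]
  apply Finset.sum_congr rfl
  intro k hk
  exact hcell k (Finset.mem_range.1 hk)

end StepIntegral

end Pool.Agent.H87FA
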