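import Pool.Agent.H87FA.Final

/-!
Passage to the limit: the constant `14 ζ(3) / π`.
-/

open MeasureTheory Set Filter Topology

namespace Pool.Agent.H87FA

theorem cos_div_sin_cube {x : ℝ} (h0 : 0 < x) (h1 : x < Real.pi / 2) :
    (1 - x ^ 2 / 2) / x ^ 3 ≤ Real.cos x / Real.sin x ^ 3 := by
  have hs : 0 < Real.sin x := Real.sin_pos_of_pos_of_lt_pi h0 (by linarith [Real.pi_pos])
  have hc : 0 < Real.cos x := Real.cos_pos_of_mem_Ioo ⟨by linarith, h1⟩
  have h2 : 1 - x ^ 2 / 2 ≤ Real.cos x := Real.one_sub_sq_div_two_le_cos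
  have h3 : Real.sin x ≤ x := Real.sin_le h0.le
  have h4 : Real.sin x ^ 3 ≤ x ^ 3 := pow_le_pow_left₀ hs.le h3 3
  calc (1 - x ^ 2 / 2) / x ^ 3 ≤ Real.cos x / x ^ 3 :=
        div_le_div_of_nonneg_right h2 (by positivity)
    _ ≤ Real.cos x / Real.sin x ^ 3 := by
        apply div_le_div_of_nonneg_left hc.le (by positivity) h4

variable {X : Type*} [MetricSpace X]

theorem area_ge_finite {ι : Type*} [Fintype ι] (q : ι → ℝ × ℝ → X) (E F G : ι → ℝ × ℝ → ℝ)
    (h : ∀ i, IsRSq (q i) (E i) (F i) (G i)) (γ : Circ → X)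
    (hγ : ∀ s t, dist s t ≤ dist (γ s) (γ t)) (hb : HasBdry q γ) (M H : ℕ) (hH : 2 * M < H) :
    ∑ m ∈ Finset.range M, 16 / (Real.pi * (2 * m + 1) ^ 3) *
      (1 - (Real.pi * (2 * m + 1) / (2 * H : ℕ)) ^ 2 / 2) ≤
      ∑ i, areaSq (E i) (F i) (G i) := by
  have hHpos : 0 < H := by omega
  have : NeZero (2 * H) := ⟨by omega⟩
  let K : Finset (ZMod (2 * H)) :=
    (Finset.range M).image (fun m => ((2 * m + 1 : ℕ) : ZMod (2 * H)))
  have hinj : Set.InjOn (fun m : ℕ => ((2 * m + 1 : ℕ) : ZMod (2 * H)))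
      (Finset.range M : Set ℕ) := by
    intro a ha b hb hab
    simp only [Finset.coe_range, Set.mem_Iio] at ha hb
    simp only [] at hab
    rw [ZMod.natCast_eq_natCast_iff', Nat.mod_eq_of_lt (by omega), Nat.mod_eq_of_lt (by omega)] at hab
    omega
  have key := area_ge_N q E F G h γ hγ hb H rfl K
  rw [Finset.sum_image hinj] at key
  set N : ℝ := ((2 * H : ℕ) : ℝ) with hNdef
  have hN0 : 0 < N := by rw [hNdef]; exact_mod_cast (by omega : 0 < 2 * H)
  set S := ∑ i, areaSq (E i) (F i) (G i) with hS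
  have hterm : ∀ m ∈ Finset.range M, 16 / (Real.pi * (2 * m + 1) ^ 3) *
      (1 - (Real.pi * (2 * m + 1) / N) ^ 2 / 2) ≤
      (2 / N) * (‖dhat (2 * H) ((2 * m + 1 : ℕ) : ZMod (2 * H))‖ ^ 2 *
        (ZMod.stdAddChar ((2 * m + 1 : ℕ) : ZMod (2 * H)) : ℂ).im) := by
    intro m hm
    rw [Finset.mem_range] at hm
    rw [dhat_term H rfl m (by omega), ← hNdef]
    set x : ℝ := Real.pi * (2 * m + 1) / N with hx
    have hx0 : 0 < x := by positivity
    have hx1 : x < Real.pi / 2 := by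
      rw [hx, div_lt_iff₀ hN0, hNdef]
      have : (2 * m + 1 : ℝ) < H := by exact_mod_cast (by omega : 2 * m + 1 < H)
      push_cast
      nlinarith [Real.pi_pos]
    have hc := cos_div_sin_cube hx0 hx1
    have e1 : 16 / (Real.pi * (2 * m + 1) ^ 3) * (1 - x ^ 2 / 2) =
        (2 / N) * (8 * Real.pi ^ 2 / N ^ 2 * ((1 - x ^ 2 / 2) / x ^ 3)) := by
      have hxx : x ^ 3 = Real.pi ^ 3 * (2 * m + 1) ^ 3 / N ^ 3 := by rw [hx]; ring
      rw [hxx]
      field_simp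
      ring
    rw [e1]
    apply mul_le_mul_of_nonneg_left _ (by positivity)
    exact mul_le_mul_of_nonneg_left hc (by positivity)
  calc ∑ m ∈ Finset.range M, 16 / (Real.pi * (2 * m + 1) ^ 3) *
        (1 - (Real.pi * (2 * m + 1) / N) ^ 2 / 2)
      ≤ ∑ m ∈ Finset.range M, (2 / N) * (‖dhat (2 * H) ((2 * m + 1 : ℕ) : ZMod (2 * H))‖ ^ 2 *
        (ZMod.stdAddChar ((2 * m + 1 : ℕ) : ZMod (2 * H)) : ℂ).im) := Finset.sum_le_sum hterm
    _ = (4 / N ^ 2) * ((1 / 2) * (N * ∑ m ∈ Finset.range M,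
        ‖dhat (2 * H) ((2 * m + 1 : ℕ) : ZMod (2 * H))‖ ^ 2 *
        (ZMod.stdAddChar ((2 * m + 1 : ℕ) : ZMod (2 * H)) : ℂ).im)) := by
        rw [← Finset.mul_sum]
        field_simp
        ring
    _ ≤ (4 / N ^ 2) * (N ^ 2 / 4 * S) := by
        apply mul_le_mul_of_nonneg_left key (by positivity)
    _ = S := by field_simp

theorem area_ge_partial {ι : Type*} [Fintype ι] (q : ι → ℝ × ℝ → X) (E F G : ι → ℝ × ℝ → ℝ)
    (h : ∀ i, IsRSq (q i) (E i) (F i) (G i)) (γ : Circ → X)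
    (hγ : ∀ s t, dist s t ≤ dist (γ s) (γ t)) (hb : HasBdry q γ) (M : ℕ) :
    ∑ m ∈ Finset.range M, 16 / Real.pi * (1 / (2 * (m : ℝ) + 1) ^ 3) ≤
      ∑ i, areaSq (E i) (F i) (G i) := by
  have hlim : Tendsto (fun H : ℕ => ∑ m ∈ Finset.range M, 16 / (Real.pi * (2 * m + 1) ^ 3) *
      (1 - (Real.pi * (2 * m + 1) / (2 * H : ℕ)) ^ 2 / 2)) atTop
      (𝓝 (∑ m ∈ Finset.range M, 16 / (Real.pi * (2 * (m : ℝ) + 1) ^ 3) *
        (1 - 0 ^ 2 / 2))) := by
    apply tendsto_finsetSum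
    intro m _
    apply Tendsto.const_mul
    apply Tendsto.const_sub
    apply Tendsto.div_const
    apply Tendsto.pow
    have h1 : Tendsto (fun H : ℕ => ((2 * H : ℕ) : ℝ)) atTop atTop := by
      apply tendsto_natCast_atTop_atTop.comp
      apply tendsto_atTop_mono (f := fun r : ℕ => r) _ tendsto_id
      intro r; omega
    exact Tendsto.div_atTop tendsto_const_nhds h1
  refine le_trans (le_of_eq ?_) (le_of_tendsto hlim ?_)
  · apply Finset.sum_congr rfl
    intro m _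
    field_simp
    ring
  · filter_upwards [eventually_gt_atTop (2 * M)] with H hH
    exact area_ge_finite q E F G h γ hγ hb M H hH

/-- **Main bound**: the area is at least `14 ζ(3) / π`. -/
theorem area_ge_zeta {ι : Type*} [Fintype ι] (q : ι → ℝ × ℝ → X) (E F G : ι → ℝ × ℝ → ℝ)
    (h : ∀ i, IsRSq (q i) (E i) (F i) (G i)) (γ : Circ → X)
    (hγ : ∀ s t, dist s t ≤ dist (γ s) (γ t)) (hb : HasBdry q γ) :
    14 * (∑' n : ℕ, 1 / ((n : ℝ) + 1) ^ 3) / Real.pi ≤ ∑ i, areaSq (E i) (F i) (G i) := by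
  have hZ : Summable (fun n : ℕ => 1 / ((n : ℝ) + 1) ^ 3) := by
    have h1 : Summable (fun n : ℕ => 1 / (n : ℝ) ^ 3) :=
      Real.summable_one_div_nat_pow.2 (by norm_num)
    have h2 := (summable_nat_add_iff 1).2 h1
    refine h2.congr ?_
    intro n; push_cast; rfl
  have hodd : Summable (fun m : ℕ => 1 / (2 * (m : ℝ) + 1) ^ 3) := by
    have h1 := hZ.comp_injective (i := fun m : ℕ => 2 * m) (by intro a b hab; simpa using hab)
    refine h1.congr ?_
    intro m; simp only [Function.comp]; push_cast; rfl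
  have heven : Summable (fun m : ℕ => 1 / (((2 * m + 1 : ℕ) : ℝ) + 1) ^ 3) := by
    have h1 := hZ.comp_injective (i := fun m : ℕ => 2 * m + 1)
      (by intro a b hab; simpa using hab)
    exact h1
  have hsplit : ∑' m : ℕ, 1 / (2 * (m : ℝ) + 1) ^ 3 =
      (7 / 8) * ∑' n : ℕ, 1 / ((n : ℝ) + 1) ^ 3 := by
    have h1 := tsum_even_add_odd (f := fun n : ℕ => 1 / ((n : ℝ) + 1) ^ 3)
      (by refine hodd.congr ?_; intro m; push_cast; rfl) heven
    have h2 : ∑' m : ℕ, 1 / (((2 * m + 1 : ℕ) : ℝ) + 1) ^ 3 =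
        (1 / 8) * ∑' n : ℕ, 1 / ((n : ℝ) + 1) ^ 3 := by
      rw [← tsum_mul_left]
      apply tsum_congr
      intro m
      have : (((2 * m + 1 : ℕ) : ℝ) + 1) = 2 * ((m : ℝ) + 1) := by push_cast; ring
      rw [this, mul_pow]
      have h3 : ((m : ℝ) + 1) ^ 3 ≠ 0 := by positivity
      field_simp
      norm_num
    have h3 : ∑' m : ℕ, 1 / (((2 * m : ℕ) : ℝ) + 1) ^ 3 = ∑' m : ℕ, 1 / (2 * (m : ℝ) + 1) ^ 3 := by
      apply tsum_congr
      intro m; push_cast; rfl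
    rw [h2, h3] at h1
    linarith
  have hmul : Summable (fun m : ℕ => 16 / Real.pi * (1 / (2 * (m : ℝ) + 1) ^ 3)) :=
    hodd.mul_left _
  have hle : ∑' m : ℕ, 16 / Real.pi * (1 / (2 * (m : ℝ) + 1) ^ 3) ≤
      ∑ i, areaSq (E i) (F i) (G i) := by
    apply Real.tsum_le_of_sum_range_le
    · intro m; positivity
    · intro M
      exact area_ge_partial q E F G h γ hγ hb M
  rw [tsum_mul_left, hsplit] at hle
  refine le_trans (le_of_eq ?_) hle
  field_simp
  ring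

end Pool.Agent.H87FA
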